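import Mathlib

/-!
Bounded cancellation by folding labelled graphs.
-/

namespace H307PP

open FreeGroup

/-- factors of reduced words are reduced -/
theorem redsub {α : Type} {L M : List (α × Bool)} (h : IsReduced L) (h' : M <:+: L) :
    IsReduced M := by
  obtain ⟨A, B, rfl⟩ := h'
  exact (List.IsChain.left_of_append h).right_of_append

/-- A graph with edge type `T`, vertex type `Q`. -/
structure Gr (T Q : Type) where
  src : T → Q
  tgt : T → Q

variable {T Q Y : Type}

/-- start of an oriented edge -/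
def Gr.s (G : Gr T Q) (a : T × Bool) : Q := if a.2 = true then G.src a.1 else G.tgt a.1
/-- end of an oriented edge -/
def Gr.t (G : Gr T Q) (a : T × Bool) : Q := if a.2 = true then G.tgt a.1 else G.src a.1

/-- paths with all edges in `S` -/
inductive Gr.Path (G : Gr T Q) (S : Finset T) : Q → List (T × Bool) → Q → Prop
  | nil (u : Q) : Gr.Path G S u [] u
  | cons (a : T × Bool) (L : List (T × Bool)) (v : Q) : a.1 ∈ S → Gr.Path G S (G.t a) L v →
      Gr.Path G S (G.s a) (a :: L) v

namespace Gr

variable {G : Gr T Q} {S : Finset T}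

theorem Path.nil_eq {u v : Q} (h : G.Path S u [] v) : u = v := by
  cases h; rfl

theorem Path.cons_inv {u v : Q} {a : T × Bool} {L : List (T × Bool)}
    (h : G.Path S u (a :: L) v) : u = G.s a ∧ a.1 ∈ S ∧ G.Path S (G.t a) L v := by
  cases h with
  | cons _ _ _ h1 h2 => exact ⟨rfl, h1, h2⟩

theorem Path.append {u v w : Q} {L M : List (T × Bool)} (h : G.Path S u L v)
    (h' : G.Path S v M w) : G.Path S u (L ++ M) w := by
  induction h with
  | nil u => exact h'
  | cons a L v ha _ ih => exact Path.cons a _ _ ha (ih h')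

theorem Path.split {L M : List (T × Bool)} : ∀ {u v : Q}, G.Path S u (L ++ M) v →
    ∃ x, G.Path S u L x ∧ G.Path S x M v := by
  induction L with
  | nil => intro u v h; exact ⟨u, Path.nil u, h⟩
  | cons a L ih =>
    intro u v h
    rw [List.cons_append] at h
    obtain ⟨rfl, ha, h2⟩ := h.cons_inv
    obtain ⟨x, h3, h4⟩ := ih h2
    exact ⟨x, Path.cons a _ _ ha h3, h4⟩

theorem s_not (G : Gr T Q) (x : T) (b : Bool) : G.s (x, !b) = G.t (x, b) := by
  cases b <;> simp [Gr.s, Gr.t]

theorem t_not (G : Gr T Q) (x : T) (b : Bool) : G.t (x, !b) = G.s (x, b) := by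
  cases b <;> simp [Gr.s, Gr.t]

theorem Path.step {u v : Q} {L M : List (T × Bool)} (h : G.Path S u L v)
    (hs : Red.Step L M) : G.Path S u M v := by
  obtain ⟨L1, L2, x, b⟩ := hs
  obtain ⟨y, h1, h2⟩ := h.split
  obtain ⟨rfl, _, h3⟩ := h2.cons_inv
  obtain ⟨_, _, h4⟩ := h3.cons_inv
  rw [t_not] at h4
  exact h1.append h4

theorem Path.red {u v : Q} {L M : List (T × Bool)} (h : G.Path S u L v)
    (hs : Red L M) : G.Path S u M v := by
  induction hs with
  | refl => exact h
  | tail _ h2 ih => exact ih.step h2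

theorem Path.invRev {u v : Q} {L : List (T × Bool)} (h : G.Path S u L v) :
    G.Path S v (invRev L) u := by
  induction h with
  | nil u => exact Path.nil u
  | cons a L v ha _ ih =>
    rw [invRev_cons]
    refine ih.append ?_
    have : FreeGroup.invRev [a] = [(a.1, !a.2)] := by simp [FreeGroup.invRev]
    rw [this]
    have h1 : G.t a = G.s (a.1, !a.2) := (s_not G a.1 a.2).symm
    have h2 : G.s a = G.t (a.1, !a.2) := (t_not G a.1 a.2).symm
    rw [h1, h2]
    exact Path.cons _ _ _ ha (Path.nil _)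

end Gr

/-- closed paths with trivial label are trivial -/
def Inj (G : Gr T Q) (S : Finset T) (lab : T → Y) : Prop :=
  ∀ (u : Q) (L : List (T × Bool)), G.Path S u L u → FreeGroup.map lab (mk L) = 1 → mk L = 1

theorem Inj.uniq {G : Gr T Q} {S : Finset T} {lab : T → Y} (h : Inj G S lab) {u v : Q}
    {L M : List (T × Bool)} (hL : G.Path S u L v) (hM : G.Path S u M v)
    (he : FreeGroup.map lab (mk L) = FreeGroup.map lab (mk M)) : mk L = mk M := by
  have h1 := h u (L ++ invRev M) (hL.append hM.invRev) (by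
    rw [← mul_mk, _root_.map_mul, ← inv_mk, _root_.map_inv, he, mul_inv_cancel])
  rw [← mul_mk, ← inv_mk, mul_inv_eq_one] at h1
  exact h1

/-! ### words -/

theorem cancel_decomp [DecidableEq T] : ∀ (R' R : List (T × Bool)), IsReduced R → IsReduced R' →
    ∃ A c B, R = A ++ c ∧ R' = invRev c ++ B ∧ IsReduced (A ++ B) := by
  intro R'
  induction R' with
  | nil => intro R hR _; exact ⟨R, [], [], by simp, by simp, by simpa using hR⟩
  | cons x M ih =>
    intro R hR hR'
    rcases List.eq_nil_or_concat R with rfl | ⟨R0, y, rfl⟩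
    · exact ⟨[], [], x :: M, by simp, by simp, by simpa using hR'⟩
    · by_cases hxy : y.1 = x.1 ∧ y.2 ≠ x.2
      · obtain ⟨A, c, B, h1, h2, h3⟩ := ih R0 (redsub hR ⟨[], [y], by simp⟩)
          (redsub hR' ⟨[x], [], by simp⟩)
        refine ⟨A, c ++ [y], B, by simp [h1], ?_, h3⟩
        have hx : (y.1, !y.2) = x := by
          obtain ⟨h4, h5⟩ := hxy
          ext
          · exact h4
          · revert h5; cases y.2 <;> cases x.2 <;> simp
        simp [h2, FreeGroup.invRev, hx]
      · refine ⟨R0 ++ [y], [], x :: M, by simp, by simp, ?_⟩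
        have hyx : y.1 = x.1 → y.2 = x.2 := fun h => by
          by_contra h'; exact hxy ⟨h, h'⟩
        have hR2 : IsReduced (R0 ++ [y]) := by simpa using hR
        have h2 : IsReduced ([y] ++ (x :: M)) := by
          rw [List.singleton_append]
          exact isReduced_cons_cons.2 ⟨hyx, hR'⟩
        exact IsReduced.append_overlap hR2 h2 (by simp)

/-! ### one fold -/

section fold

variable [DecidableEq T] [DecidableEq Q]

/-- the vertex map of a fold -/
def rho (q1 q2 : Q) (q : Q) : Q := if q = q2 then q1 else q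
/-- the edge map of a fold -/
def tau (e e' : T) (x : T) : T := if x = e' then e else x

/-- the folded graph -/
def foldGr (G : Gr T Q) (q1 q2 : Q) : Gr T Q := ⟨fun x => rho q1 q2 (G.src x), fun x => rho q1 q2 (G.tgt x)⟩

theorem rho_self (q1 q2 : Q) : rho q1 q2 q1 = q1 := by
  unfold rho; split_ifs <;> rfl

theorem rho_q2 (q1 q2 : Q) : rho q1 q2 q2 = q1 := by
  unfold rho; simp

theorem foldGr_s (G : Gr T Q) (q1 q2 : Q) (a : T × Bool) :
    (foldGr G q1 q2).s a = rho q1 q2 (G.s a) := by
  unfold foldGr Gr.s; split_ifs <;> rfl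

theorem foldGr_t (G : Gr T Q) (q1 q2 : Q) (a : T × Bool) :
    (foldGr G q1 q2).t a = rho q1 q2 (G.t a) := by
  unfold foldGr Gr.t; split_ifs <;> rfl

variable {G : Gr T Q} {S : Finset T} {e e' : T} {b : Bool}

theorem fold_s (hs : G.s (e, b) = G.s (e', b)) (c : Bool) :
    (foldGr G (G.t (e, b)) (G.t (e', b))).s (e, c)
      = rho (G.t (e, b)) (G.t (e', b)) (G.s (e', c)) := by
  rw [foldGr_s]
  by_cases hc : c = b
  · subst hc; rw [hs]
  · have : c = !b := by revert hc; cases c <;> cases b <;> simp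
    subst this
    rw [Gr.s_not, Gr.s_not, rho_self, rho_q2]

theorem fold_t (hs : G.s (e, b) = G.s (e', b)) (c : Bool) :
    (foldGr G (G.t (e, b)) (G.t (e', b))).t (e, c)
      = rho (G.t (e, b)) (G.t (e', b)) (G.t (e', c)) := by
  have := fold_s hs (!c)
  rwa [Gr.s_not, Gr.s_not] at this

theorem fold_path (he : e ∈ S) (hne : e ≠ e') (hs : G.s (e, b) = G.s (e', b)) {u v : Q}
    {L : List (T × Bool)} (h : G.Path S u L v) :
    (foldGr G (G.t (e, b)) (G.t (e', b))).Path (S.erase e') (rho (G.t (e, b)) (G.t (e', b)) u)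
      (L.map fun x => (tau e e' x.1, x.2)) (rho (G.t (e, b)) (G.t (e', b)) v) := by
  induction h with
  | nil u => exact Gr.Path.nil _
  | cons a L v ha _ ih =>
    obtain ⟨x, c⟩ := a
    rw [List.map_cons]
    by_cases hx : x = e'
    · subst hx
      have h1 : tau e x x = e := by simp [tau]
      simp only [h1]
      rw [← fold_s hs c]
      refine Gr.Path.cons _ _ _ ?_ ?_
      · exact Finset.mem_erase.2 ⟨hne, he⟩
      · rw [fold_t hs c]; exact ih
    · have h1 : tau e e' x = x := by simp [tau, hx]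
      simp only [h1]
      rw [← foldGr_s]
      refine Gr.Path.cons _ _ _ ?_ ?_
      · exact Finset.mem_erase.2 ⟨hx, ha⟩
      · rw [foldGr_t]; exact ih

theorem lab_tau {lab : T → Y} (hl : lab e = lab e') (g : FreeGroup T) :
    FreeGroup.map lab (FreeGroup.map (tau e e') g) = FreeGroup.map lab g := by
  rw [FreeGroup.map.comp]
  congr 2
  funext x
  simp only [Function.comp, tau]
  split_ifs with h
  · rw [h, hl]
  · rfl

/-- connecting path between two identified vertices -/
theorem conn (he : e ∈ S) (he' : e' ∈ S) (hs : G.s (e, b) = G.s (e', b)) {u w : Q}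
    (h : rho (G.t (e, b)) (G.t (e', b)) u = rho (G.t (e, b)) (G.t (e', b)) w) :
    ∃ C, G.Path S u C w ∧ FreeGroup.map (tau e e') (mk C) = 1 ∧ C.length ≤ 2 := by
  have k1 : G.Path S (G.t (e, b)) [(e, !b), (e', b)] (G.t (e', b)) := by
    rw [← Gr.s_not]
    refine Gr.Path.cons _ _ _ he ?_
    rw [Gr.t_not, hs]
    exact Gr.Path.cons _ _ _ he' (Gr.Path.nil _)
  have k2 : G.Path S (G.t (e', b)) [(e', !b), (e, b)] (G.t (e, b)) := by
    rw [← Gr.s_not]
    refine Gr.Path.cons _ _ _ he' ?_
    rw [Gr.t_not, ← hs]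
    exact Gr.Path.cons _ _ _ he (Gr.Path.nil _)
  have t1 : tau e e' e' = e := by simp [tau]
  have t2 : tau e e' e = e := by unfold tau; split_ifs <;> rfl
  by_cases huw : u = w
  · subst huw
    exact ⟨[], Gr.Path.nil _, by rw [← one_eq_mk, _root_.map_one], by simp⟩
  · unfold rho at h
    split_ifs at h with h1 h2 h2
    · exact absurd (h1.trans h2.symm) huw
    · refine ⟨[(e', !b), (e, b)], ?_, ?_, by simp⟩
      · rw [h1, ← h]; exact k2
      · rw [FreeGroup.map.mk]
        simp only [List.map_cons, List.map_nil, t1, t2]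
        rw [one_eq_mk]
        exact Quot.sound Red.Step.cons_not_rev
    · refine ⟨[(e, !b), (e', b)], ?_, ?_, by simp⟩
      · rw [h2, h]; exact k1
      · rw [FreeGroup.map.mk]
        simp only [List.map_cons, List.map_nil, t1, t2]
        rw [one_eq_mk]
        exact Quot.sound Red.Step.cons_not_rev
    · exact absurd h huw

theorem lift_path (he : e ∈ S) (he' : e' ∈ S) (hs : G.s (e, b) = G.s (e', b)) {u' v' : Q}
    {L' : List (T × Bool)}
    (h : (foldGr G (G.t (e, b)) (G.t (e', b))).Path (S.erase e') u' L' v') :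
    ∀ u, rho (G.t (e, b)) (G.t (e', b)) u = u' → ∃ v L, G.Path S u L v ∧
      rho (G.t (e, b)) (G.t (e', b)) v = v' ∧
      FreeGroup.map (tau e e') (mk L) = mk L' := by
  induction h with
  | nil u' =>
    intro u hu
    exact ⟨u, [], Gr.Path.nil _, hu, by rw [← one_eq_mk, _root_.map_one]⟩
  | cons a L' v' ha _ ih =>
    intro u hu
    rw [foldGr_s] at hu
    obtain ⟨C, hC1, hC2, _⟩ := conn he he' hs hu
    obtain ⟨v, L, h1, h2, h3⟩ := ih (G.t a) (foldGr_t G _ _ a).symm
    refine ⟨v, C ++ (a :: L), hC1.append (Gr.Path.cons a L v (Finset.mem_of_mem_erase ha) h1), h2, ?_⟩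
    rw [← mul_mk, _root_.map_mul, hC2, one_mul]
    have h4 : mk (a :: L) = mk [a] * mk L := by rw [mul_mk]; rfl
    have h5 : mk (a :: L') = mk [a] * mk L' := by rw [mul_mk]; rfl
    rw [h4, h5, _root_.map_mul, h3, FreeGroup.map.mk]
    congr 2
    simp only [List.map_cons, List.map_nil]
    have : tau e e' a.1 = a.1 := by
      have := (Finset.mem_erase.1 ha).1
      simp [tau, this]
    rw [this]

theorem fold_inj {lab : T → Y} (hI : Inj G S lab) (hl : lab e = lab e')
    (he : e ∈ S) (he' : e' ∈ S) (hs : G.s (e, b) = G.s (e', b)) :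
    Inj (foldGr G (G.t (e, b)) (G.t (e', b))) (S.erase e') lab := by
  intro x' p' hp hlab
  cases p' with
  | nil => exact one_eq_mk.symm
  | cons a M =>
    have hx : x' = rho (G.t (e, b)) (G.t (e', b)) (G.s a) := by
      rw [← foldGr_s]; exact hp.cons_inv.1
    obtain ⟨v, L, h1, h2, h3⟩ := lift_path he he' hs hp (G.s a) hx.symm
    obtain ⟨C, hC1, hC2, _⟩ := conn he he' hs (h2.trans hx)
    have hC3 : FreeGroup.map lab (mk C) = 1 := by
      rw [← lab_tau hl, hC2, _root_.map_one]
    have hL3 : FreeGroup.map lab (mk L) = 1 := by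
      rw [← lab_tau hl, h3, hlab]
    have h4 := hI _ (L ++ C) (h1.append hC1) (by
      rw [← mul_mk, _root_.map_mul, hC3, hL3, one_mul])
    rw [← mul_mk] at h4
    have h5 := congrArg (FreeGroup.map (tau e e')) h4
    rw [_root_.map_mul, hC2, mul_one, h3, _root_.map_one] at h5
    exact h5

theorem vanish_len {lab : T → Y} (hI : Inj G S lab) (hl : lab e = lab e')
    (he : e ∈ S) (he' : e' ∈ S) (hne : e ≠ e') (hs : G.s (e, b) = G.s (e', b)) {x y : Q}
    {P : List (T × Bool)} (hP : G.Path S x P y) (hr : IsReduced P)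
    (h1 : FreeGroup.map (tau e e') (mk P) = 1) : P.length ≤ 2 := by
  have h2 := fold_path he hne hs hP
  rw [FreeGroup.map.mk, one_eq_mk, Red.exact] at h1
  obtain ⟨N, hN1, hN2⟩ := h1
  rw [Red.nil_iff] at hN2
  subst hN2
  have h3 := (h2.red hN1).nil_eq
  obtain ⟨C, hC1, hC2, hC3⟩ := conn he he' hs h3
  have h4 : mk P = mk C := by
    refine hI.uniq hP hC1 ?_
    rw [← lab_tau hl (mk P), ← lab_tau hl (mk C), hC2]
    congr 1
    rw [FreeGroup.map.mk, one_eq_mk]
    exact Red.exact.2 ⟨[], hN1, Red.refl⟩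
  have h5 := reduce.sound h4
  rw [hr.reduce_eq] at h5
  rw [h5]
  exact (reduce.red.length_le).trans hC3

end fold

end H307PP
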