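import Mathlib
import Pool.Agent.Helper307.PP.Fold

/-!
Bounded cancellation: the main induction.
-/

namespace H307PP

open FreeGroup

variable {T Q Y : Type} [DecidableEq T] [DecidableEq Q] [DecidableEq Y]

theorem folded_reduced {G : Gr T Q} {S : Finset T} {lab : T → Y}
    (hf : ∀ e ∈ S, ∀ e' ∈ S, ∀ b : Bool, lab e = lab e' → G.s (e, b) = G.s (e', b) → e = e') :
    ∀ (w : List (T × Bool)) (u v : Q), G.Path S u w v → IsReduced w →
      IsReduced (w.map fun x => (lab x.1, x.2)) := by
  intro w
  induction w with
  | nil => intro u v _ _; exact IsReduced.nil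
  | cons a w ih =>
    intro u v hp hr
    cases w with
    | nil => exact IsReduced.singleton
    | cons c w =>
      obtain ⟨_, ha, hp2⟩ := hp.cons_inv
      have hr2 := isReduced_cons_cons.1 hr
      have h1 := ih _ _ hp2 hr2.2
      obtain ⟨h3, hc, _⟩ := hp2.cons_inv
      rw [List.map_cons] at h1 ⊢
      rw [List.map_cons]
      refine isReduced_cons_cons.2 ⟨?_, h1⟩
      simp only
      intro hl
      by_contra hne
      have h4 : a.2 = !c.2 := by revert hne; cases a.2 <;> cases c.2 <;> simp
      have h5 : G.s (a.1, c.2) = G.s (c.1, c.2) := by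
        have : G.t a = G.s (a.1, c.2) := by
          have h6 : a = (a.1, !c.2) := by rw [← h4]
          rw [h6, Gr.t_not]
        rw [← this, h3]
      have h6 := hf a.1 ha c.1 hc c.2 hl h5
      exact hne (hr2.1 h6)

theorem norm_mk_reduced {L : List (Y × Bool)} (h : IsReduced L) : norm (mk L) = L.length := by
  rw [FreeGroup.norm, toWord_mk, h.reduce_eq]

theorem bcc (lab : T → Y) : ∀ (n : ℕ) (G : Gr T Q) (S : Finset T), S.card ≤ n → Inj G S lab →
    ∀ (u v : Q) (w1 w2 : List (T × Bool)), G.Path S u (w1 ++ w2) v → IsReduced (w1 ++ w2) →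
      norm (FreeGroup.map lab (mk w1)) + norm (FreeGroup.map lab (mk w2)) ≤
        norm (FreeGroup.map lab (mk (w1 ++ w2))) + 2 * n := by
  intro n
  induction n with
  | zero =>
    intro G S hS hI u v w1 w2 hp hr
    have hS0 : S = ∅ := Finset.card_eq_zero.1 (Nat.le_zero.1 hS)
    subst hS0
    cases hw : w1 ++ w2 with
    | nil =>
      obtain ⟨rfl, rfl⟩ := List.append_eq_nil_iff.1 hw
      rw [← one_eq_mk, _root_.map_one]; simp
    | cons a L =>
      rw [hw] at hp
      exact absurd hp.cons_inv.2.1 (Finset.notMem_empty _)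
  | succ n ihn =>
    intro G S hS hI u v w1 w2 hp hr
    by_cases hf : ∀ e ∈ S, ∀ e' ∈ S, ∀ b : Bool, lab e = lab e' → G.s (e, b) = G.s (e', b) → e = e'
    · have h := folded_reduced hf _ _ _ hp hr
      have h1 : IsReduced (w1.map fun x => (lab x.1, x.2)) := by
        refine redsub h ⟨[], w2.map fun x => (lab x.1, x.2), by simp⟩
      have h2 : IsReduced (w2.map fun x => (lab x.1, x.2)) := by
        refine redsub h ⟨w1.map fun x => (lab x.1, x.2), [], by simp⟩
      rw [FreeGroup.map.mk, FreeGroup.map.mk, FreeGroup.map.mk, norm_mk_reduced h,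
        norm_mk_reduced h1, norm_mk_reduced h2]
      simp
    · push Not at hf
      obtain ⟨e, he, e', he', b, hl, hs, hne⟩ := hf
      set G' := foldGr G (G.t (e, b)) (G.t (e', b)) with hG'
      set f : T × Bool → T × Bool := fun x => (tau e e' x.1, x.2) with hfdef
      have hI' : Inj G' (S.erase e') lab := fold_inj hI hl he he' hs
      have hcard : (S.erase e').card ≤ n := by
        rw [Finset.card_erase_of_mem he']; omega
      have hP := fold_path he hne hs hp
      obtain ⟨A, c, B, hR1, hR2, hAB⟩ := cancel_decomp (reduce (w2.map f)) (reduce (w1.map f))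
        (isReduced_iff_reduce_eq.2 reduce.idem) (isReduced_iff_reduce_eq.2 reduce.idem)
      have hmk1 : FreeGroup.map (tau e e') (mk w1) = mk A * mk c := by
        rw [FreeGroup.map.mk, ← reduce.self]
        change mk (reduce (w1.map f)) = _
        rw [hR1, mul_mk]
      have hmk2 : FreeGroup.map (tau e e') (mk w2) = (mk c)⁻¹ * mk B := by
        rw [FreeGroup.map.mk, ← reduce.self]
        change mk (reduce (w2.map f)) = _
        rw [hR2, inv_mk, mul_mk]
      have hmk : FreeGroup.map (tau e e') (mk (w1 ++ w2)) = mk (A ++ B) := by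
        rw [← mul_mk, _root_.map_mul, hmk1, hmk2, ← mul_mk]
        group
      have hredAB : reduce ((w1 ++ w2).map f) = A ++ B := by
        rw [← hAB.reduce_eq]
        apply reduce.sound
        rw [← hmk, FreeGroup.map.mk]
      have hpAB : G'.Path (S.erase e') (rho (G.t (e, b)) (G.t (e', b)) u) (A ++ B)
          (rho (G.t (e, b)) (G.t (e', b)) v) := by
        rw [← hredAB]
        exact hP.red reduce.red
      have hIH := ihn G' (S.erase e') hcard hI' _ _ A B hpAB hAB
      have hc : c.length ≤ 1 := by
        by_contra hcl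
        push Not at hcl
        -- suffix of w1
        have hr1 : Red (w1.map f) (A ++ c) := by rw [← hR1]; exact reduce.red
        have hr2 : Red (w2.map f) (invRev c ++ B) := by rw [← hR2]; exact reduce.red
        obtain ⟨L3, L4, h3, _, h5⟩ := Red.to_append_iff.1 hr1
        obtain ⟨L5, L6, h6, h7, _⟩ := Red.to_append_iff.1 hr2
        obtain ⟨W0, P1, hw1, _, hP1⟩ := List.map_eq_append_iff.1 h3
        obtain ⟨P2, W3, hw2, hP2, _⟩ := List.map_eq_append_iff.1 h6
        have hlen1 : c.length ≤ P1.length := by
          have := h5.length_le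
          rw [← hP1, List.length_map] at this
          exact this
        have hlen2 : c.length ≤ P2.length := by
          have := h7.length_le
          rw [← hP2, List.length_map, invRev_length] at this
          exact this
        have hww : w1 ++ w2 = W0 ++ ((P1 ++ P2) ++ W3) := by
          rw [hw1, hw2]; simp
        have hpw := hp
        rw [hww] at hpw
        obtain ⟨x, _, hx⟩ := hpw.split
        obtain ⟨y, hy, _⟩ := hx.split
        have hrP : IsReduced (P1 ++ P2) := redsub hr ⟨W0, W3, by rw [hww]; simp⟩
        have hone : FreeGroup.map (tau e e') (mk (P1 ++ P2)) = 1 := by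
          rw [← mul_mk, _root_.map_mul, FreeGroup.map.mk, FreeGroup.map.mk]
          change mk (P1.map f) * mk (P2.map f) = 1
          rw [hP1, hP2]
          have e1 : mk L4 = mk c := Red.exact.2 ⟨c, h5, Red.refl⟩
          have e2 : mk L5 = mk (invRev c) := Red.exact.2 ⟨invRev c, h7, Red.refl⟩
          rw [e1, e2, ← inv_mk, mul_inv_cancel]
        have hv := vanish_len hI hl he he' hne hs hy hrP hone
        rw [List.length_append] at hv
        omega
      have hcn : norm (FreeGroup.map lab (mk c)) ≤ 1 := by
        rw [FreeGroup.map.mk]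
        refine norm_mk_le.trans ?_
        simpa using hc
      have e1 : norm (FreeGroup.map lab (mk w1)) ≤ norm (FreeGroup.map lab (mk A)) + 1 := by
        rw [← lab_tau hl (mk w1), hmk1, _root_.map_mul]
        exact (FreeGroup.norm_mul_le _ _).trans (by omega)
      have e2 : norm (FreeGroup.map lab (mk w2)) ≤ norm (FreeGroup.map lab (mk B)) + 1 := by
        rw [← lab_tau hl (mk w2), hmk2, _root_.map_mul, _root_.map_inv]
        refine (FreeGroup.norm_mul_le _ _).trans ?_
        rw [norm_inv_eq]; omega
      have e3 : norm (FreeGroup.map lab (mk (w1 ++ w2))) = norm (FreeGroup.map lab (mk (A ++ B))) := by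
        rw [← lab_tau hl (mk (w1 ++ w2)), hmk]
      omega

end H307PP
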