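import Mathlib
import Pool.Agent.Helper307.PP.Bcc

/-!
The graph of a basis and the bounded cancellation lemma.
-/

namespace H307PP

set_option linter.unusedSectionVars false

open FreeGroup

variable {X Y : Type} [DecidableEq X] [DecidableEq Y] [Fintype X] [Inhabited Y]

/-- the image word of a generator -/
def W (φ : FreeGroup X →* FreeGroup Y) (x : X) : List (Y × Bool) := (φ (of x)).toWord

/-- number of letters -/
def ell (φ : FreeGroup X →* FreeGroup Y) (x : X) : ℕ := (W φ x).length

/-- k-th letter -/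
def let' (φ : FreeGroup X →* FreeGroup Y) (p : X × ℕ) : Y × Bool :=
  ((W φ p.1)[p.2]?).getD (default, true)

/-- vertices -/
def vtx (φ : FreeGroup X →* FreeGroup Y) (x : X) (k : ℕ) : Option (X × ℕ) :=
  if k = 0 ∨ k = ell φ x then none else some (x, k)

/-- the initial graph -/
def G0 (φ : FreeGroup X →* FreeGroup Y) : Gr (X × ℕ) (Option (X × ℕ)) :=
  ⟨fun p => if (let' φ p).2 = true then vtx φ p.1 p.2 else vtx φ p.1 (p.2 + 1),
   fun p => if (let' φ p).2 = true then vtx φ p.1 (p.2 + 1) else vtx φ p.1 p.2⟩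

/-- its edges -/
def S0 (φ : FreeGroup X →* FreeGroup Y) : Finset (X × ℕ) :=
  Finset.univ.biUnion fun x => (Finset.range (ell φ x)).image fun k => (x, k)

theorem mem_S0 (φ : FreeGroup X →* FreeGroup Y) (p : X × ℕ) : p ∈ S0 φ ↔ p.2 < ell φ p.1 := by
  unfold S0
  simp only [Finset.mem_biUnion, Finset.mem_univ, true_and, Finset.mem_image, Finset.mem_range]
  constructor
  · rintro ⟨x, k, hk, rfl⟩; exact hk
  · intro h; exact ⟨p.1, p.2, h, rfl⟩

theorem card_S0 (φ : FreeGroup X →* FreeGroup Y) : (S0 φ).card ≤ ∑ x, (φ (of x)).norm := by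
  unfold S0
  refine Finset.card_biUnion_le.trans ?_
  refine Finset.sum_le_sum fun x _ => ?_
  refine Finset.card_image_le.trans ?_
  rw [Finset.card_range]; rfl

/-- the loop of a generator -/
def Lp (φ : FreeGroup X →* FreeGroup Y) (x : X) : List ((X × ℕ) × Bool) :=
  (List.range (ell φ x)).map fun k => ((x, k), (let' φ (x, k)).2)

theorem Lp_lab (φ : FreeGroup X →* FreeGroup Y) (x : X) :
    (Lp φ x).map (fun a => ((let' φ a.1).1, a.2)) = W φ x := by
  unfold Lp
  rw [List.map_map]
  apply List.ext_getElem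
  · simp [ell]
  · intro n h1 h2
    simp only [List.getElem_map, List.getElem_range, Function.comp, let']
    rw [List.getElem?_eq_getElem h2]
    rfl

/-- substitution hom -/
def Psi (φ : FreeGroup X →* FreeGroup Y) : FreeGroup X →* FreeGroup (X × ℕ) :=
  FreeGroup.lift fun x => mk (Lp φ x)

/-- the label map of the initial graph -/
def lab0 (φ : FreeGroup X →* FreeGroup Y) (p : X × ℕ) : Y := (let' φ p).1

theorem lab_Psi (φ : FreeGroup X →* FreeGroup Y) (g : FreeGroup X) :
    FreeGroup.map (lab0 φ) (Psi φ g) = φ g := by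
  have : (FreeGroup.map (lab0 φ)).comp (Psi φ) = φ := by
    apply FreeGroup.ext_hom
    intro x
    rw [MonoidHom.comp_apply, Psi, FreeGroup.lift_apply_of, FreeGroup.map.mk]
    have := Lp_lab φ x
    unfold lab0
    rw [this]
    exact mk_toWord
  rw [← MonoidHom.comp_apply, this]

theorem G0_s (φ : FreeGroup X →* FreeGroup Y) (x : X) (k : ℕ) :
    (G0 φ).s ((x, k), (let' φ (x, k)).2) = vtx φ x k := by
  unfold Gr.s G0
  cases h : (let' φ (x, k)).2 <;> simp [h]

theorem G0_t (φ : FreeGroup X →* FreeGroup Y) (x : X) (k : ℕ) :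
    (G0 φ).t ((x, k), (let' φ (x, k)).2) = vtx φ x (k + 1) := by
  unfold Gr.t G0
  cases h : (let' φ (x, k)).2 <;> simp [h]

/-- base path to a vertex -/
def cpath (φ : FreeGroup X →* FreeGroup Y) : Option (X × ℕ) → FreeGroup (X × ℕ)
  | none => 1
  | some p => mk ((Lp φ p.1).take p.2)

theorem cpath_vtx (φ : FreeGroup X →* FreeGroup Y) (x : X) (k : ℕ) (hk : k < ell φ x) :
    cpath φ (vtx φ x k) = mk ((Lp φ x).take k) := by
  unfold vtx
  split_ifs with h
  · rcases h with h | h
    · subst h; simp [cpath, one_eq_mk]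
    · omega
  · rfl

theorem step_range (φ : FreeGroup X →* FreeGroup Y) (a : (X × ℕ) × Bool) (ha : a.1 ∈ S0 φ) :
    cpath φ ((G0 φ).s a) * mk [a] * (cpath φ ((G0 φ).t a))⁻¹ ∈ (Psi φ).range := by
  have key : ∀ (x : X) (k : ℕ), k < ell φ x →
      cpath φ (vtx φ x k) * mk [((x, k), (let' φ (x, k)).2)] * (cpath φ (vtx φ x (k + 1)))⁻¹
        ∈ (Psi φ).range := by
    intro x k hk
    have h1 : mk ((Lp φ x).take k) * mk [((x, k), (let' φ (x, k)).2)]
        = mk ((Lp φ x).take (k + 1)) := by
      rw [mul_mk]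
      congr 1
      have hl : k < (Lp φ x).length := by simpa [Lp] using hk
      rw [List.take_succ_eq_append_getElem hl]
      congr 1
      simp [Lp]
    rw [cpath_vtx φ x k hk, h1]
    by_cases hk2 : k + 1 = ell φ x
    · have h2 : cpath φ (vtx φ x (k + 1)) = 1 := by
        unfold vtx; rw [if_pos (Or.inr hk2)]; rfl
      rw [h2, inv_one, mul_one, hk2]
      refine ⟨of x, ?_⟩
      rw [Psi, FreeGroup.lift_apply_of, List.take_of_length_le (by simp [Lp])]
    · rw [cpath_vtx φ x (k + 1) (by omega), mul_inv_cancel]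
      exact one_mem _
  obtain ⟨⟨x, k⟩, c⟩ := a
  have hk : k < ell φ x := (mem_S0 φ (x, k)).1 ha
  have h := key x k hk
  by_cases hc : c = (let' φ (x, k)).2
  · rw [hc, G0_s, G0_t]; exact h
  · have hc' : c = !(let' φ (x, k)).2 := by
      revert hc; cases c <;> cases (let' φ (x, k)).2 <;> simp
    rw [hc', Gr.s_not, Gr.t_not, G0_s, G0_t]
    have h2 := inv_mem h
    rw [mul_inv_rev, mul_inv_rev, inv_inv, inv_mk] at h2
    simpa [FreeGroup.invRev, mul_assoc] using h2

theorem path_range (φ : FreeGroup X →* FreeGroup Y) {u v : Option (X × ℕ)}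
    {L : List ((X × ℕ) × Bool)} (h : (G0 φ).Path (S0 φ) u L v) :
    cpath φ u * mk L * (cpath φ v)⁻¹ ∈ (Psi φ).range := by
  induction h with
  | nil u => rw [← one_eq_mk, mul_one, mul_inv_cancel]; exact one_mem _
  | cons a L v ha _ ih =>
    have h1 := mul_mem (step_range φ a ha) ih
    have h2 : mk (a :: L) = mk [a] * mk L := by rw [mul_mk]; rfl
    rw [h2]
    convert h1 using 1
    group

theorem inj0 (φ : FreeGroup X →* FreeGroup Y) (hφ : Function.Injective φ) :
    Inj (G0 φ) (S0 φ) (lab0 φ) := by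
  intro u L hL hlab
  obtain ⟨g, hg⟩ := path_range φ hL
  have h1 := lab_Psi φ g
  rw [hg, _root_.map_mul, _root_.map_mul, hlab, mul_one, _root_.map_inv, mul_inv_cancel] at h1
  have h2 : g = 1 := hφ (by rw [← h1, _root_.map_one])
  rw [h2, _root_.map_one] at hg
  have h3 : cpath φ u * mk L = cpath φ u := mul_inv_eq_one.1 hg.symm
  exact mul_eq_left.1 h3

/-- expansion of a word -/
def blk (φ : FreeGroup X →* FreeGroup Y) (a : X × Bool) : List ((X × ℕ) × Bool) :=
  if a.2 = true then Lp φ a.1 else invRev (Lp φ a.1)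

def Ex (φ : FreeGroup X →* FreeGroup Y) (w : List (X × Bool)) : List ((X × ℕ) × Bool) :=
  (w.map (blk φ)).flatten

theorem Ex_append (φ : FreeGroup X →* FreeGroup Y) (w w' : List (X × Bool)) :
    Ex φ (w ++ w') = Ex φ w ++ Ex φ w' := by
  simp [Ex]

theorem Psi_mk (φ : FreeGroup X →* FreeGroup Y) (w : List (X × Bool)) :
    Psi φ (mk w) = mk (Ex φ w) := by
  induction w with
  | nil => rw [← one_eq_mk, _root_.map_one]; rfl
  | cons a w ih =>
    have h2 : mk (a :: w) = mk [a] * mk w := by rw [mul_mk]; rfl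
    have h3 : Ex φ (a :: w) = blk φ a ++ Ex φ w := by simp [Ex]
    rw [h2, _root_.map_mul, ih, h3, ← mul_mk]
    congr 1
    obtain ⟨x, c⟩ := a
    cases c
    · have : (mk [(x, false)] : FreeGroup X) = (of x)⁻¹ := by
        rw [of, inv_mk]; rfl
      rw [this, _root_.map_inv, Psi, FreeGroup.lift_apply_of, inv_mk]
      rfl
    · have : (mk [(x, true)] : FreeGroup X) = of x := rfl
      rw [this, Psi, FreeGroup.lift_apply_of]
      rfl

theorem Lp_path_aux (φ : FreeGroup X →* FreeGroup Y) (x : X) (j : ℕ) (hj : j ≤ ell φ x) :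
    (G0 φ).Path (S0 φ) (vtx φ x 0)
      ((List.range j).map fun k => ((x, k), (let' φ (x, k)).2)) (vtx φ x j) := by
  induction j with
  | zero => exact Gr.Path.nil _
  | succ j ih =>
    rw [List.range_succ, List.map_append]
    refine (ih (by omega)).append ?_
    rw [← G0_s, ← G0_t]
    exact Gr.Path.cons _ _ _ ((mem_S0 φ (x, j)).2 (by simpa using hj)) (Gr.Path.nil _)

theorem Lp_path (φ : FreeGroup X →* FreeGroup Y) (x : X) :
    (G0 φ).Path (S0 φ) none (Lp φ x) none := by
  have h := Lp_path_aux φ x (ell φ x) le_rfl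
  have h1 : vtx φ x 0 = none := by simp [vtx]
  have h2 : vtx φ x (ell φ x) = none := by simp [vtx]
  rw [h1, h2] at h
  exact h

theorem Ex_path (φ : FreeGroup X →* FreeGroup Y) (w : List (X × Bool)) :
    (G0 φ).Path (S0 φ) none (Ex φ w) none := by
  induction w with
  | nil => exact Gr.Path.nil _
  | cons a w ih =>
    have h3 : Ex φ (a :: w) = blk φ a ++ Ex φ w := by simp [Ex]
    rw [h3]
    refine Gr.Path.append ?_ ih
    unfold blk
    split_ifs
    · exact Lp_path φ _
    · exact (Lp_path φ _).invRev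

theorem Lp_reduced (φ : FreeGroup X →* FreeGroup Y) (x : X) : IsReduced (Lp φ x) := by
  unfold FreeGroup.IsReduced Lp
  rw [List.isChain_map]
  refine (List.isChain_range _ (ell φ x)).2 ?_
  intro m _ h
  simp at h

theorem invRev_reduced {Z : Type} [DecidableEq Z] {L : List (Z × Bool)} (h : IsReduced L) : IsReduced (invRev L) := by
  rw [isReduced_iff_reduce_eq, reduce_invRev, h.reduce_eq]

theorem ell_pos (φ : FreeGroup X →* FreeGroup Y) (hφ : Function.Injective φ) (x : X) :
    0 < ell φ x := by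
  rcases Nat.eq_zero_or_pos (ell φ x) with h | h
  · exfalso
    have h1 : (φ (of x)).norm = 0 := h
    rw [FreeGroup.norm_eq_zero] at h1
    exact of_ne_one x (hφ (by rw [h1, _root_.map_one]))
  · exact h

theorem Ex_reduced (φ : FreeGroup X →* FreeGroup Y) (hφ : Function.Injective φ)
    (w : List (X × Bool)) (hw : IsReduced w) : IsReduced (Ex φ w) := by
  have hlen : ∀ x, 0 < (Lp φ x).length := fun x => by simpa [Lp] using ell_pos φ hφ x
  have hne : ∀ a, blk φ a ≠ [] := by
    intro a h
    have := hlen a.1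
    unfold blk at h
    split_ifs at h
    · rw [h] at this; simp at this
    · rw [← invRev_length, h] at this; simp at this
  have hlast : ∀ x, (Lp φ x).getLast? = some ((x, ell φ x - 1), (let' φ (x, ell φ x - 1)).2) := by
    intro x
    have h1 := ell_pos φ hφ x
    unfold Lp
    rw [List.getLast?_map, List.getLast?_range, if_neg (by omega)]
    rfl
  have hhead : ∀ x, (Lp φ x).head? = some ((x, 0), (let' φ (x, 0)).2) := by
    intro x
    have h1 := ell_pos φ hφ x
    unfold Lp
    rw [List.head?_map, List.head?_range, if_neg (by omega)]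
    rfl
  have hlast' : ∀ x, (invRev (Lp φ x)).getLast? = some ((x, 0), !(let' φ (x, 0)).2) := by
    intro x
    unfold FreeGroup.invRev
    rw [List.getLast?_reverse, List.head?_map, hhead]
    rfl
  have hhead' : ∀ x, (invRev (Lp φ x)).head?
      = some ((x, ell φ x - 1), !(let' φ (x, ell φ x - 1)).2) := by
    intro x
    unfold FreeGroup.invRev
    rw [List.head?_reverse, List.getLast?_map, hlast]
    rfl
  unfold Ex
  rw [FreeGroup.IsReduced, List.isChain_flatten (by
    intro h
    obtain ⟨a, _, ha⟩ := List.mem_map.1 h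
    exact hne a ha)]
  refine ⟨?_, ?_⟩
  · intro l hl
    obtain ⟨a, _, rfl⟩ := List.mem_map.1 hl
    unfold blk
    split_ifs
    · exact Lp_reduced φ _
    · exact invRev_reduced (Lp_reduced φ _)
  · rw [List.isChain_map]
    refine List.IsChain.imp ?_ hw
    intro a c hac p hp q hq hpq
    obtain ⟨x, ba⟩ := a
    obtain ⟨y, bc⟩ := c
    simp only at hac
    rw [Option.mem_def] at hp hq
    cases ba <;> cases bc <;> simp only [blk, Bool.false_eq_true, if_false, if_true] at hp hq
    · rw [hlast'] at hp; rw [hhead'] at hq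
      cases hp; cases hq
      simp only [Prod.mk.injEq] at hpq ⊢
      obtain ⟨rfl, h2⟩ := hpq
      rw [← h2]
    · rw [hlast'] at hp; rw [hhead] at hq
      cases hp; cases hq
      simp only [Prod.mk.injEq] at hpq
      exact absurd (hac hpq.1) (by simp)
    · rw [hlast] at hp; rw [hhead'] at hq
      cases hp; cases hq
      simp only [Prod.mk.injEq] at hpq
      exact absurd (hac hpq.1) (by simp)
    · rw [hlast] at hp; rw [hhead] at hq
      cases hp; cases hq
      simp only [Prod.mk.injEq] at hpq ⊢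
      obtain ⟨rfl, h2⟩ := hpq
      rw [h2]

/-- Bounded cancellation. -/
theorem bounded_cancellation (φ : FreeGroup X →* FreeGroup Y) (hφ : Function.Injective φ)
    (w1 w2 : List (X × Bool)) (h : IsReduced (w1 ++ w2)) :
    (φ (mk w1)).norm + (φ (mk w2)).norm ≤ (φ (mk (w1 ++ w2))).norm +
      2 * ∑ x, (φ (of x)).norm := by
  have hr := Ex_reduced φ hφ _ h
  have hp := Ex_path φ (w1 ++ w2)
  rw [Ex_append] at hr hp
  have := bcc (lab0 φ) (∑ x, (φ (of x)).norm) (G0 φ) (S0 φ) (card_S0 φ) (inj0 φ hφ) _ _ _ _ hp hr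
  rw [← Ex_append, ← Psi_mk, ← Psi_mk, ← Psi_mk, lab_Psi, lab_Psi, lab_Psi] at this
  exact this

end H307PP
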