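import Mathlib
import Pool.Agent.Helper307.PP.Init

/-!
Words containing certain patterns are not potentially positive.
-/

namespace H307PP

set_option linter.unusedSectionVars false

open FreeGroup

variable {X Y : Type} [DecidableEq X] [DecidableEq Y]

/-- positive elements -/
def Pos (u : FreeGroup Y) : Prop := ∀ a ∈ u.toWord, a.2 = true

/-- exponent sum -/
def ht : FreeGroup Y →* Multiplicative ℤ := FreeGroup.lift fun _ => Multiplicative.ofAdd 1

/-- exponent sum as an integer -/
def hz (u : FreeGroup Y) : ℤ := Multiplicative.toAdd (ht u)

theorem hz_mul (u v : FreeGroup Y) : hz (u * v) = hz u + hz v := by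
  unfold hz; rw [_root_.map_mul]; rfl

theorem hz_inv (u : FreeGroup Y) : hz u⁻¹ = - hz u := by
  unfold hz; rw [_root_.map_inv]; rfl

theorem hz_one : hz (1 : FreeGroup Y) = 0 := by
  unfold hz; rw [_root_.map_one]; rfl

theorem hz_single (a : Y × Bool) : hz (mk [a]) = if a.2 = true then 1 else -1 := by
  obtain ⟨y, b⟩ := a
  cases b
  · have : (mk [(y, false)] : FreeGroup Y) = (of y)⁻¹ := by rw [of, inv_mk]; rfl
    rw [this, hz_inv]
    simp [hz, ht]
  · have : (mk [(y, true)] : FreeGroup Y) = of y := rfl
    rw [this]
    simp [hz, ht]

theorem mk_cons' {Z : Type} (a : Z × Bool) (L : List (Z × Bool)) :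
    (mk (a :: L) : FreeGroup Z) = mk [a] * mk L := by rw [mul_mk]; rfl

theorem hz_mk_le (L : List (Y × Bool)) : hz (mk L) ≤ L.length := by
  induction L with
  | nil => rw [← one_eq_mk, hz_one]; simp
  | cons a L ih =>
    rw [mk_cons', hz_mul, hz_single]
    have : (if a.2 = true then (1 : ℤ) else -1) ≤ 1 := by split_ifs <;> norm_num
    push_cast [List.length_cons]
    linarith

theorem hz_mk_pos (L : List (Y × Bool)) (h : ∀ a ∈ L, a.2 = true) : hz (mk L) = L.length := by
  induction L with
  | nil => rw [← one_eq_mk, hz_one]; simp
  | cons a L ih =>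
    rw [mk_cons', hz_mul, hz_single, ih fun b hb => h b (List.mem_cons_of_mem _ hb),
      if_pos (h a List.mem_cons_self)]
    push_cast [List.length_cons]
    ring

theorem hz_le (u : FreeGroup Y) : hz u ≤ u.norm := by
  conv_lhs => rw [← mk_toWord (x := u)]
  exact hz_mk_le _

theorem hz_pos {u : FreeGroup Y} (h : Pos u) : hz u = u.norm := by
  conv_lhs => rw [← mk_toWord (x := u)]
  exact hz_mk_pos _ h

/-! ### powers of cyclically reduced words -/

theorem norm_pow_cyc {u : FreeGroup Y} (h : IsCyclicallyReduced u.toWord) (m : ℕ) :
    (u ^ m).norm = m * u.norm := by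
  rw [FreeGroup.norm, toWord_pow, (h.flatten_replicate m).isReduced.reduce_eq]
  simp [FreeGroup.norm]

section

variable [Fintype X]

/-- total length of the images of the generators -/
def Etot (φ : FreeGroup X →* FreeGroup Y) : ℕ := ∑ x, (φ (of x)).norm

theorem word_ne_nil (φ : FreeGroup X →* FreeGroup Y) (hφ : Function.Injective φ) (x : X) :
    (φ (of x)).toWord ≠ [] := by
  intro h
  rw [toWord_eq_nil_iff] at h
  exact of_ne_one x (hφ (by rw [h, _root_.map_one]))

theorem good_pair [Nonempty X] (φ : FreeGroup X →* FreeGroup Y) (hφ : Function.Injective φ)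
    (hmin : ∀ d : Y × Bool, Etot φ ≤ ∑ x, ((mk [d])⁻¹ * φ (of x) * mk [d]).norm) :
    (∃ i, IsCyclicallyReduced (φ (of i)).toWord ∧ Etot φ ≤ Fintype.card X * (φ (of i)).norm) ∨
    (∃ i j, i ≠ j ∧ IsCyclicallyReduced ((φ (of i)).toWord ++ (φ (of j)).toWord) ∧
      Etot φ ≤ Fintype.card X * (φ (of i)).norm) := by
  obtain ⟨i, _, hi⟩ := Finset.exists_max_image (Finset.univ : Finset X)
    (fun x => (φ (of x)).norm) Finset.univ_nonempty
  have hE : Etot φ ≤ Fintype.card X * (φ (of i)).norm := by
    unfold Etot
    calc ∑ x, (φ (of x)).norm ≤ ∑ _x : X, (φ (of i)).norm := Finset.sum_le_sum fun x hx => hi x hx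
      _ = Fintype.card X * (φ (of i)).norm := by simp
  by_cases hc : IsCyclicallyReduced (φ (of i)).toWord
  · exact Or.inl ⟨i, hc, hE⟩
  · right
    have hri : IsReduced (φ (of i)).toWord := isReduced_toWord
    rw [isCyclicallyReduced_iff] at hc
    push Not at hc
    obtain ⟨a, ha, d, hd, h1, h2⟩ := hc hri
    -- word of i
    rcases List.eq_nil_or_concat (φ (of i)).toWord with h0 | ⟨R0, a', hR0⟩
    · exact absurd h0 (word_ne_nil φ hφ i)
    · rw [List.concat_eq_append] at hR0
      have haa : a' = a := by
        rw [hR0] at ha
        simpa using ha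
      subst haa
      cases hR1 : R0 with
      | nil =>
        rw [hR0, hR1] at hd
        simp only [List.nil_append, List.head?_cons, Option.mem_def, Option.some.injEq] at hd
        rw [hd] at h2
        exact absurd rfl h2
      | cons d' mid =>
        have hdd : d' = d := by
          rw [hR0, hR1] at hd
          simpa using hd
        subst hdd
        have ha2 : a' = (d'.1, !d'.2) := by
          ext
          · exact h1
          · revert h2; cases a'.2 <;> cases d'.2 <;> simp
        have hinv : (mk [a'] : FreeGroup Y) = (mk [d'])⁻¹ := by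
          rw [ha2, inv_mk]; rfl
        have hwi : φ (of i) = mk [d'] * mk mid * (mk [d'])⁻¹ := by
          rw [← hinv, mul_mk, mul_mk, ← mk_toWord (x := φ (of i)), hR0, hR1]
          rfl
        have hni : ((mk [d'])⁻¹ * φ (of i) * mk [d']).norm < (φ (of i)).norm := by
          have e1 : (mk [d'])⁻¹ * φ (of i) * mk [d'] = mk mid := by rw [hwi]; group
          rw [e1]
          have e2 : (φ (of i)).norm = mid.length + 2 := by
            rw [FreeGroup.norm, hR0, hR1]; simp
          have e3 : (mk mid : FreeGroup Y).norm ≤ mid.length := norm_mk_le
          omega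
        have hex : ∃ j, (φ (of j)).norm < ((mk [d'])⁻¹ * φ (of j) * mk [d']).norm := by
          by_contra hno
          push Not at hno
          have := Finset.sum_lt_sum (s := Finset.univ) (fun x _ => hno x) ⟨i, Finset.mem_univ _, hni⟩
          have h5 := hmin d'
          unfold Etot at h5
          omega
        obtain ⟨j, hj⟩ := hex
        have hij : i ≠ j := by
          rintro rfl; omega
        refine ⟨i, j, hij, ?_, hE⟩
        have hrj : IsReduced (φ (of j)).toWord := isReduced_toWord
        have hfirst : ∀ f ∈ (φ (of j)).toWord.head?, f ≠ d' := by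
          intro f hf hfd
          cases hw : (φ (of j)).toWord with
          | nil => rw [hw] at hf; simp at hf
          | cons g rest =>
            rw [hw] at hf
            have hg : g = f := by simpa using hf
            subst hg
            subst hfd
            have e1 : φ (of j) = mk [g] * mk rest := by
              rw [mul_mk, ← mk_toWord (x := φ (of j)), hw]; rfl
            have e2 : (mk [g])⁻¹ * φ (of j) * mk [g] = mk rest * mk [g] := by rw [e1]; group
            have e3 : (φ (of j)).norm = rest.length + 1 := by rw [FreeGroup.norm, hw]; simp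
            have e4 : (mk rest * mk [g] : FreeGroup Y).norm ≤ rest.length + 1 := by
              rw [mul_mk]
              refine norm_mk_le.trans ?_
              simp
            rw [e2] at hj
            omega
        have hlast : ∀ l ∈ (φ (of j)).toWord.getLast?, l ≠ (d'.1, !d'.2) := by
          intro l hl hld
          rcases List.eq_nil_or_concat (φ (of j)).toWord with h0 | ⟨R2, l', hR2⟩
          · exact word_ne_nil φ hφ j h0
          · rw [List.concat_eq_append] at hR2
            rw [hR2] at hl
            have hll : l' = l := by simpa using hl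
            subst hll
            have hinv2 : (mk [l'] : FreeGroup Y) = (mk [d'])⁻¹ := by
              rw [hld, inv_mk]; rfl
            have e1 : φ (of j) = mk R2 * (mk [d'])⁻¹ := by
              rw [← hinv2, mul_mk, ← mk_toWord (x := φ (of j)), hR2]
            have e2 : (mk [d'])⁻¹ * φ (of j) * mk [d'] = (mk [d'])⁻¹ * mk R2 := by rw [e1]; group
            have e3 : (φ (of j)).norm = R2.length + 1 := by rw [FreeGroup.norm, hR2]; simp
            have e4 : ((mk [d'])⁻¹ * mk R2 : FreeGroup Y).norm ≤ R2.length + 1 := by
              refine (FreeGroup.norm_mul_le _ _).trans ?_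
              rw [norm_inv_eq]
              have e5 : (mk [d'] : FreeGroup Y).norm ≤ 1 := norm_mk_le.trans (by simp)
              have e6 : (mk R2 : FreeGroup Y).norm ≤ R2.length := norm_mk_le
              omega
            rw [e2] at hj
            omega
        rw [isCyclicallyReduced_iff]
        constructor
        · rw [FreeGroup.IsReduced, List.isChain_append]
          refine ⟨hri, hrj, ?_⟩
          intro x hx y hy hxy
          have hxa : x = a' := by
            rw [hR0] at hx; simpa using hx.symm
          subst hxa
          by_contra hne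
          apply hfirst y hy
          ext
          · rw [← hxy, h1]
          · revert hne h2; cases x.2 <;> cases y.2 <;> cases d'.2 <;> simp
        · intro l hl f hf hlf
          have hf2 : f = d' := by
            rw [hR0, hR1] at hf; simpa using hf.symm
          subst hf2
          have hl2 : l ∈ (φ (of j)).toWord.getLast? := by
            rw [List.getLast?_append_of_ne_nil _ (word_ne_nil φ hφ j)] at hl
            exact hl
          by_contra hne
          apply hlast l hl2
          ext
          · exact hlf
          · revert hne; cases l.2 <;> cases f.2 <;> simp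

end

end H307PP
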