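import Mathlib
import Pool.Agent.Helper307.PP.Pos

/-!
A cyclically reduced word containing all patterns is not potentially positive.
-/

namespace H307PP

set_option linter.unusedSectionVars false

open FreeGroup

variable {X Y : Type} [DecidableEq X] [DecidableEq Y] [Fintype X] [Inhabited Y]

/-- first kind of power word -/
def v1 (r : ℕ) (i : X) : List (X × Bool) := List.replicate (2 * (5 * r + 1)) (i, true)
/-- second kind of power word -/
def v2 (r : ℕ) (i j : X) : List (X × Bool) :=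
  (List.replicate (5 * r + 1) [(i, true), (j, true)]).flatten

/-- patterns -/
def P1 (r : ℕ) (i j : X) : List (X × Bool) := v1 r i ++ ([(j, true)] ++ invRev (v1 r i))
def P2 (r : ℕ) (i j : X) : List (X × Bool) := v2 r i j ++ ([(i, true)] ++ invRev (v2 r i j))

theorem bc2 (φ : FreeGroup X →* FreeGroup Y) (hφ : Function.Injective φ)
    (w1 w2 : List (X × Bool)) (h : IsReduced (w1 ++ w2)) :
    (φ (mk w1)).norm + (φ (mk w2)).norm ≤ (φ (mk (w1 ++ w2))).norm + 2 * Etot φ :=
  bounded_cancellation φ hφ w1 w2 h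

theorem five (φ : FreeGroup X →* FreeGroup Y) (hφ : Function.Injective φ)
    (α v z β : List (X × Bool)) (h : IsReduced (α ++ ((v ++ (z ++ invRev v)) ++ β))) :
    (φ (mk α)).norm + 2 * (φ (mk v)).norm + (φ (mk z)).norm + (φ (mk β)).norm ≤
      (φ (mk (α ++ ((v ++ (z ++ invRev v)) ++ β)))).norm + 8 * Etot φ := by
  have h1 := bc2 φ hφ _ _ h
  have r1 : IsReduced ((v ++ (z ++ invRev v)) ++ β) := redsub h ⟨α, [], by simp⟩
  have h2 := bc2 φ hφ _ _ r1
  have r2 : IsReduced (v ++ (z ++ invRev v)) := redsub r1 ⟨[], β, by simp⟩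
  have h3 := bc2 φ hφ _ _ r2
  have r3 : IsReduced (z ++ invRev v) := redsub r2 ⟨v, [], by simp⟩
  have h4 := bc2 φ hφ _ _ r3
  have h5 : (φ (mk (invRev v))).norm = (φ (mk v)).norm := by
    rw [← inv_mk, _root_.map_inv, norm_inv_eq]
  omega

theorem powers (φ : FreeGroup X →* FreeGroup Y) (hφ : Function.Injective φ)
    (w : List (X × Bool)) (hw : IsCyclicallyReduced w) (k : ℕ) :
    k * (φ (mk w)).norm ≤ (φ (mk w) ^ k).norm + 2 * k * Etot φ := by
  induction k with
  | zero => simp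
  | succ k ih =>
    have hr := (hw.flatten_replicate (k + 1)).isReduced
    rw [List.replicate_succ, List.flatten_cons] at hr
    have h1 := bc2 φ hφ _ _ hr
    have e1 : (mk ((List.replicate k w).flatten) : FreeGroup X) = mk w ^ k := by rw [pow_mk]
    rw [← mul_mk, e1, _root_.map_mul, _root_.map_pow] at h1
    rw [pow_succ']
    have e2 : (k + 1) * (φ (mk w)).norm = k * (φ (mk w)).norm + (φ (mk w)).norm := by ring
    have e3 : 2 * (k + 1) * Etot φ = 2 * k * Etot φ + 2 * Etot φ := by ring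
    omega

/-- the main non-positivity argument for one word -/
theorem no_big (ψ : FreeGroup X →* FreeGroup Y) (hψ : Function.Injective ψ) (c : FreeGroup Y)
    (φ : FreeGroup X →* FreeGroup Y) (hφc : ∀ g, φ g = c⁻¹ * ψ g * c)
    (α v z β : List (X × Bool)) (hw : IsCyclicallyReduced (α ++ ((v ++ (z ++ invRev v)) ++ β)))
    (hpos : Pos (ψ (mk (α ++ ((v ++ (z ++ invRev v)) ++ β))))) :
    (φ (mk v)).norm ≤ 5 * Etot φ := by
  set w := α ++ ((v ++ (z ++ invRev v)) ++ β) with hwdef
  have hφ : Function.Injective φ := by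
    intro a b hab
    rw [hφc, hφc] at hab
    exact hψ (mul_left_cancel (mul_right_cancel hab))
  have h5 := five φ hφ α v z β hw.isReduced
  rw [← hwdef] at h5
  by_contra hlt
  push Not at hlt
  set k := c.norm + 1 with hk
  have hp := powers φ hφ w hw k
  -- upper bound for powers
  have hup : (φ (mk w) ^ k).norm ≤ 2 * c.norm + k * (ψ (mk w)).norm := by
    have e1 : φ (mk w) ^ k = c⁻¹ * ψ (mk w) ^ k * c := by
      rw [hφc]
      have : ∀ n : ℕ, (c⁻¹ * ψ (mk w) * c) ^ n = c⁻¹ * ψ (mk w) ^ n * c := by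
        intro n
        induction n with
        | zero => simp
        | succ n ih => rw [pow_succ, ih, pow_succ]; group
      exact this k
    rw [e1]
    have e2 : ∀ n : ℕ, (ψ (mk w) ^ n).norm ≤ n * (ψ (mk w)).norm := by
      intro n
      induction n with
      | zero => simp
      | succ n ih =>
        rw [pow_succ]
        refine (FreeGroup.norm_mul_le _ _).trans ?_
        have : (n + 1) * (ψ (mk w)).norm = n * (ψ (mk w)).norm + (ψ (mk w)).norm := by ring
        omega
    have e3 := FreeGroup.norm_mul_le (c⁻¹ * ψ (mk w) ^ k) c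
    have e4 := FreeGroup.norm_mul_le (c⁻¹) (ψ (mk w) ^ k)
    rw [norm_inv_eq] at e4
    have e5 := e2 k
    omega
  -- norm of positive
  have hH : ((ψ (mk w)).norm : ℤ) ≤ (φ (mk α)).norm + (φ (mk z)).norm + (φ (mk β)).norm := by
    rw [← hz_pos hpos]
    have e1 : hz (ψ (mk w)) = hz (φ (mk w)) := by
      rw [hφc, hz_mul, hz_mul, hz_inv]; ring
    rw [e1, hwdef, ← mul_mk, ← mul_mk, ← mul_mk, ← mul_mk, ← inv_mk, _root_.map_mul,
      _root_.map_mul, _root_.map_mul, _root_.map_mul, _root_.map_inv, hz_mul, hz_mul, hz_mul,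
      hz_mul, hz_inv]
    have a1 := hz_le (φ (mk α))
    have a2 := hz_le (φ (mk z))
    have a3 := hz_le (φ (mk β))
    linarith
  have hH' : (ψ (mk w)).norm ≤ (φ (mk α)).norm + (φ (mk z)).norm + (φ (mk β)).norm := by
    exact_mod_cast hH
  -- combine
  have h6 : k * ((φ (mk α)).norm + 2 * (φ (mk v)).norm + (φ (mk z)).norm + (φ (mk β)).norm)
      ≤ k * ((φ (mk w)).norm + 8 * Etot φ) := Nat.mul_le_mul_left k h5
  have h7 : k * (ψ (mk w)).norm ≤ k * ((φ (mk α)).norm + (φ (mk z)).norm + (φ (mk β)).norm) :=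
    Nat.mul_le_mul_left k hH'
  have h8 : k * (5 * Etot φ + 1) ≤ k * (φ (mk v)).norm := Nat.mul_le_mul_left k hlt
  have e1 : k * ((φ (mk α)).norm + 2 * (φ (mk v)).norm + (φ (mk z)).norm + (φ (mk β)).norm)
      = k * ((φ (mk α)).norm + (φ (mk z)).norm + (φ (mk β)).norm) + 2 * (k * (φ (mk v)).norm) := by
    ring
  have e2 : k * ((φ (mk w)).norm + 8 * Etot φ) = k * (φ (mk w)).norm + 8 * (k * Etot φ) := by ring
  have e3 : 2 * k * Etot φ = 2 * (k * Etot φ) := by ring
  have e4 : k * (5 * Etot φ + 1) = 5 * (k * Etot φ) + k := by ring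
  rw [e1, e2] at h6
  rw [e3] at hp
  rw [e4] at h8
  omega

theorem no_pattern [Nontrivial X] (ψ : FreeGroup X →* FreeGroup Y) (hψ : Function.Injective ψ)
    (w : List (X × Bool)) (hw : IsCyclicallyReduced w) (hpos : Pos (ψ (mk w))) :
    ∃ i j : X, i ≠ j ∧ (¬ (P1 (Fintype.card X) i j <:+: w) ∨ ¬ (P2 (Fintype.card X) i j <:+: w)) := by
  by_contra hno
  push Not at hno
  -- choose the best conjugate
  let f : FreeGroup Y → ℕ := fun c => ∑ x, (c⁻¹ * ψ (of x) * c).norm
  obtain ⟨c, hc⟩ : ∃ c, ∀ c', f c ≤ f c' := by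
    have hne : (Set.range f).Nonempty := ⟨f 1, 1, rfl⟩
    obtain ⟨c, hc⟩ := Nat.sInf_mem hne
    exact ⟨c, fun c' => by rw [hc]; exact Nat.sInf_le ⟨c', rfl⟩⟩
  let φ : FreeGroup X →* FreeGroup Y := (MulAut.conj c⁻¹).toMonoidHom.comp ψ
  have hφc : ∀ g, φ g = c⁻¹ * ψ g * c := by
    intro g
    simp [φ, MulAut.conj_apply]
  have hφ : Function.Injective φ := by
    intro a b hab
    rw [hφc, hφc] at hab
    exact hψ (mul_left_cancel (mul_right_cancel hab))
  have hE : Etot φ = f c := by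
    unfold Etot; simp only [hφc, f]
  have hmin : ∀ d : Y × Bool, Etot φ ≤ ∑ x, ((mk [d])⁻¹ * φ (of x) * mk [d]).norm := by
    intro d
    rw [hE]
    refine (hc (c * mk [d])).trans (le_of_eq ?_)
    simp only [f]
    refine Finset.sum_congr rfl fun x _ => ?_
    congr 1
    rw [hφc]; group
  have hEpos : 0 < Etot φ := by
    obtain ⟨x⟩ : Nonempty X := inferInstance
    unfold Etot
    refine Finset.sum_pos' (fun _ _ => Nat.zero_le _) ⟨x, Finset.mem_univ _, ?_⟩
    rw [Nat.pos_iff_ne_zero]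
    intro h
    rw [FreeGroup.norm_eq_zero] at h
    exact of_ne_one x (hφ (by rw [h, _root_.map_one]))
  rcases good_pair φ hφ hmin with ⟨i, hcyc, hi⟩ | ⟨i, j, hij, hcyc, hi⟩
  · obtain ⟨j, hj⟩ := exists_ne i
    obtain ⟨α, β, hαβ⟩ := (hno i j hj.symm).1
    have hw' : w = α ++ ((v1 (Fintype.card X) i ++ ([(j, true)] ++ invRev (v1 (Fintype.card X) i))) ++ β) := by
      rw [← hαβ]; simp [P1]
    rw [hw'] at hw hpos
    have h1 := no_big ψ hψ c φ hφc _ _ _ _ hw hpos
    have e1 : (mk (v1 (Fintype.card X) i) : FreeGroup X) = of i ^ (2 * (5 * Fintype.card X + 1)) := by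
      unfold v1
      rw [← toWord_of_pow, mk_toWord]
    rw [e1, _root_.map_pow, norm_pow_cyc hcyc] at h1
    have h2 : Fintype.card X * (2 * (5 * Fintype.card X + 1) * (φ (of i)).norm)
        ≤ Fintype.card X * (5 * Etot φ) := Nat.mul_le_mul_left _ h1
    have h3 : 2 * (5 * Fintype.card X + 1) * Etot φ
        ≤ 2 * (5 * Fintype.card X + 1) * (Fintype.card X * (φ (of i)).norm) :=
      Nat.mul_le_mul_left _ hi
    nlinarith
  · obtain ⟨α, β, hαβ⟩ := (hno i j hij).2
    have hw' : w = α ++ ((v2 (Fintype.card X) i j ++ ([(i, true)] ++ invRev (v2 (Fintype.card X) i j))) ++ β) := by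
      rw [← hαβ]; simp [P2]
    rw [hw'] at hw hpos
    have h1 := no_big ψ hψ c φ hφc _ _ _ _ hw hpos
    have e1 : (mk (v2 (Fintype.card X) i j) : FreeGroup X) = (of i * of j) ^ (5 * Fintype.card X + 1) := by
      unfold v2
      rw [← pow_mk]
      congr 1
    have e2 : (φ (of i * of j)).toWord = (φ (of i)).toWord ++ (φ (of j)).toWord := by
      rw [_root_.map_mul, toWord_mul, hcyc.isReduced.reduce_eq]
    have e3 : (φ (of i * of j)).norm = (φ (of i)).norm + (φ (of j)).norm := by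
      rw [FreeGroup.norm, e2]; simp [FreeGroup.norm]
    rw [e1, _root_.map_pow, norm_pow_cyc (by rw [e2]; exact hcyc), e3] at h1
    have h2 : Fintype.card X * ((5 * Fintype.card X + 1) * ((φ (of i)).norm + (φ (of j)).norm))
        ≤ Fintype.card X * (5 * Etot φ) := Nat.mul_le_mul_left _ h1
    have h3 : (5 * Fintype.card X + 1) * Etot φ
        ≤ (5 * Fintype.card X + 1) * (Fintype.card X * (φ (of i)).norm) :=
      Nat.mul_le_mul_left _ hi
    have h4 : 0 ≤ Fintype.card X * ((5 * Fintype.card X + 1) * (φ (of j)).norm) := Nat.zero_le _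
    nlinarith

end H307PP
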