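import Mathlib
import Pool.Agent.Helper307.PP.Pattern

/-!
Counting reduced words that avoid a pattern.
-/

namespace H307PP

set_option linter.unusedSectionVars false

open FreeGroup

variable {X : Type} [DecidableEq X] [Fintype X]

/-- letters that may follow each other -/
def nb (a b : X × Bool) : Prop := a.1 = b.1 → a.2 = b.2

instance : DecidableRel (nb (X := X)) := fun a b => by unfold nb; infer_instance

/-- reduced words of length n that may follow the letter a -/
def Rw : ℕ → X × Bool → Finset (List (X × Bool))
  | 0, _ => {[]}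
  | (n + 1), a => (Finset.univ.filter (nb a)).biUnion fun b => (Rw n b).image (List.cons b)

theorem mem_Rw : ∀ (n : ℕ) (a : X × Bool) (w : List (X × Bool)),
    w ∈ Rw n a ↔ w.length = n ∧ IsReduced (a :: w) := by
  intro n
  induction n with
  | zero =>
    intro a w
    simp only [Rw, Finset.mem_singleton]
    constructor
    · rintro rfl; exact ⟨rfl, IsReduced.singleton⟩
    · rintro ⟨h, _⟩; exact List.length_eq_zero_iff.1 h
  | succ n ih =>
    intro a w
    simp only [Rw, Finset.mem_biUnion, Finset.mem_filter, Finset.mem_univ, true_and,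
      Finset.mem_image]
    constructor
    · rintro ⟨b, hb, w', hw', rfl⟩
      obtain ⟨h1, h2⟩ := (ih b w').1 hw'
      exact ⟨by simp [h1], isReduced_cons_cons.2 ⟨hb, h2⟩⟩
    · rintro ⟨h1, h2⟩
      cases w with
      | nil => simp at h1
      | cons b w' =>
        obtain ⟨h3, h4⟩ := isReduced_cons_cons.1 h2
        exact ⟨b, h3, w', (ih b w').2 ⟨by simpa using h1, h4⟩, rfl⟩

theorem card_nb (a : X × Bool) :
    (Finset.univ.filter (nb a)).card = 2 * Fintype.card X - 1 := by
  have h : Finset.univ.filter (nb a) = Finset.univ.erase (a.1, !a.2) := by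
    ext b
    simp only [Finset.mem_filter, Finset.mem_univ, true_and, Finset.mem_erase, and_true, nb]
    constructor
    · intro h hb
      rw [hb] at h
      have := h rfl
      simp at this
    · intro h h1
      by_contra h2
      apply h
      ext
      · exact h1.symm
      · revert h2; cases a.2 <;> cases b.2 <;> simp
  rw [h, Finset.card_erase_of_mem (Finset.mem_univ _), Finset.card_univ, Fintype.card_prod,
    Fintype.card_bool, mul_comm]

theorem card_Rw : ∀ (n : ℕ) (a : X × Bool), (Rw n a).card ≤ (2 * Fintype.card X - 1) ^ n := by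
  intro n
  induction n with
  | zero => intro a; simp [Rw]
  | succ n ih =>
    intro a
    rw [Rw]
    refine Finset.card_biUnion_le.trans ?_
    calc ∑ b ∈ Finset.univ.filter (nb a), ((Rw n b).image (List.cons b)).card
        ≤ ∑ b ∈ Finset.univ.filter (nb a), (2 * Fintype.card X - 1) ^ n :=
          Finset.sum_le_sum fun b _ => Finset.card_image_le.trans (ih b)
      _ = (2 * Fintype.card X - 1) ^ (n + 1) := by
          rw [Finset.sum_const, card_nb, smul_eq_mul, pow_succ, mul_comm]

/-- those avoiding U -/
noncomputable def Av (U : List (X × Bool)) (n : ℕ) (a : X × Bool) : Finset (List (X × Bool)) :=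
  open Classical in (Rw n a).filter fun w => ¬ U <:+: w

theorem mem_Av (U : List (X × Bool)) (n : ℕ) (a : X × Bool) (w : List (X × Bool)) :
    w ∈ Av U n a ↔ (w.length = n ∧ IsReduced (a :: w)) ∧ ¬ U <:+: w := by
  unfold Av
  rw [Finset.mem_filter, mem_Rw]

theorem exists_before (h3 : 3 ≤ Fintype.card X) (a : X × Bool) (U : List (X × Bool))
    (hU : IsReduced U) : ∃ z, IsReduced (a :: z :: U) := by
  -- choose a generator different from the generator of a and of the head of U
  have : ∃ x : X, x ≠ a.1 ∧ ∀ c ∈ U.head?, x ≠ c.1 := by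
    by_contra hno
    push Not at hno
    have hsub : (Finset.univ : Finset X) ⊆ insert a.1 ((U.head?.map Prod.fst).toFinset) := by
      intro x _
      by_cases hx : x = a.1
      · rw [hx]; exact Finset.mem_insert_self _ _
      · obtain ⟨c, hc, hxc⟩ := hno x hx
        refine Finset.mem_insert_of_mem ?_
        rw [Option.mem_def] at hc
        simp [hc, hxc]
    have h1 := Finset.card_le_card hsub
    have h2 : (insert a.1 ((U.head?.map Prod.fst).toFinset)).card ≤ 2 := by
      refine (Finset.card_insert_le _ _).trans ?_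
      have : ((U.head?.map Prod.fst).toFinset).card ≤ 1 := by
        cases U.head? <;> simp
      omega
    rw [Finset.card_univ] at h1
    omega
  obtain ⟨x, hx1, hx2⟩ := this
  refine ⟨(x, true), isReduced_cons_cons.2 ⟨fun h => absurd h.symm hx1, ?_⟩⟩
  cases U with
  | nil => exact IsReduced.singleton
  | cons c U => exact isReduced_cons_cons.2 ⟨fun h => absurd h (hx2 c (by simp)), hU⟩

theorem isReduced_split {a : X × Bool} {w1 w2 : List (X × Bool)} (h : IsReduced (a :: (w1 ++ w2))) :
    IsReduced (a :: w1) ∧ IsReduced ((w1.getLast?.getD a) :: w2) := by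
  refine ⟨redsub h ⟨[], w2, by simp⟩, ?_⟩
  rcases List.eq_nil_or_concat w1 with rfl | ⟨R0, y, rfl⟩
  · simpa using h
  · rw [List.concat_eq_append] at h ⊢
    have : ((R0 ++ [y]).getLast?.getD a) = y := by simp
    rw [this]
    exact redsub h ⟨a :: R0, [], by simp⟩

theorem card_Av (h3 : 3 ≤ Fintype.card X) (U : List (X × Bool)) (hU : IsReduced U) (q t : ℕ) :
    ∀ a : X × Bool, (Av U ((U.length + 1) * q + t) a).card ≤
      ((2 * Fintype.card X - 1) ^ (U.length + 1) - 1) ^ q * (2 * Fintype.card X - 1) ^ t := by
  induction q with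
  | zero =>
    intro a
    simp only [mul_zero, zero_add, pow_zero, one_mul]
    exact (Finset.card_le_card (Finset.filter_subset _ _)).trans (card_Rw t a)
  | succ q ih =>
    intro a
    obtain ⟨z, hz⟩ := exists_before h3 a U hU
    set K := U.length + 1 with hK
    have hmemz : (z :: U) ∈ Rw K a := (mem_Rw K a _).2 ⟨by simp [hK], hz⟩
    have hsub : Av U (K * (q + 1) + t) a ⊆ ((Rw K a).erase (z :: U)).biUnion
        fun w1 => (Av U (K * q + t) (w1.getLast?.getD a)).image (w1 ++ ·) := by
      intro w hw
      obtain ⟨⟨hlen, hred⟩, hav⟩ := (mem_Av _ _ _ _).1 hw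
      have hsplit : w = w.take K ++ w.drop K := (List.take_append_drop K w).symm
      have hlen' : w.length = K + (K * q + t) := by rw [hlen]; ring
      rw [hsplit] at hred
      obtain ⟨hr1, hr2⟩ := isReduced_split hred
      rw [Finset.mem_biUnion]
      refine ⟨w.take K, ?_, ?_⟩
      · refine Finset.mem_erase.2 ⟨?_, (mem_Rw K a _).2 ⟨by rw [List.length_take]; omega, hr1⟩⟩
        intro h
        apply hav
        rw [hsplit, h]
        exact ⟨[z], w.drop K, by simp⟩
      · rw [Finset.mem_image]
        refine ⟨w.drop K, (mem_Av _ _ _ _).2 ⟨⟨by rw [List.length_drop]; omega, hr2⟩, ?_⟩, hsplit.symm⟩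
        intro h
        exact hav (h.trans (List.drop_suffix K w).isInfix)
    refine (Finset.card_le_card hsub).trans ?_
    refine Finset.card_biUnion_le.trans ?_
    have hgen : ∀ A B C : ℕ, A * (B * C) = B * A * C := fun A B C => by ring
    calc ∑ w1 ∈ (Rw K a).erase (z :: U), ((Av U (K * q + t) (w1.getLast?.getD a)).image (w1 ++ ·)).card
        ≤ ∑ w1 ∈ (Rw K a).erase (z :: U),
          ((2 * Fintype.card X - 1) ^ K - 1) ^ q * (2 * Fintype.card X - 1) ^ t :=
          Finset.sum_le_sum fun w1 _ => Finset.card_image_le.trans (ih _)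
      _ ≤ ((2 * Fintype.card X - 1) ^ K - 1) ^ (q + 1) * (2 * Fintype.card X - 1) ^ t := by
          rw [Finset.sum_const, smul_eq_mul, Finset.card_erase_of_mem hmemz, pow_succ]
          have := card_Rw K a
          have h1 : (Rw K a).card - 1 ≤ (2 * Fintype.card X - 1) ^ K - 1 := by omega
          calc _ ≤ ((2 * Fintype.card X - 1) ^ K - 1) *
                (((2 * Fintype.card X - 1) ^ K - 1) ^ q * (2 * Fintype.card X - 1) ^ t) :=
                Nat.mul_le_mul_right _ h1
            _ = _ := hgen _ _ _

end H307PP
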