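import Mathlib
import Pool.Agent.Helper307.PP.Count

/-!
The total count of potentially positive elements.
-/

namespace H307PP

set_option linter.unusedSectionVars false

open FreeGroup

variable {X : Type} [DecidableEq X] [Fintype X]

/-! ### patterns are reduced -/

theorem v1_reduced (r : ℕ) (i : X) : IsReduced (v1 r i) := by
  unfold v1 FreeGroup.IsReduced
  exact List.isChain_replicate_of_rel _ (fun _ => rfl)

theorem v2_reduced (r : ℕ) (i j : X) : IsReduced (v2 r i j) := by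
  unfold v2
  refine (IsCyclicallyReduced.flatten_replicate ?_ _).isReduced
  rw [isCyclicallyReduced_iff]
  refine ⟨isReduced_cons_cons.2 ⟨fun _ => rfl, IsReduced.singleton⟩, ?_⟩
  intro a ha b hb _
  simp at ha hb
  rw [← ha, ← hb]

theorem v1_len (r : ℕ) (i : X) : (v1 r i).length = 2 * (5 * r + 1) := by simp [v1]

theorem v2_len (r : ℕ) (i j : X) : (v2 r i j).length = 2 * (5 * r + 1) := by
  simp [v2]; ring

theorem P1_len (r : ℕ) (i j : X) : (P1 r i j).length = 20 * r + 5 := by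
  unfold P1
  rw [List.length_append, List.length_append, invRev_length, v1_len]
  simp; ring

theorem P2_len (r : ℕ) (i j : X) : (P2 r i j).length = 20 * r + 5 := by
  unfold P2
  rw [List.length_append, List.length_append, invRev_length, v2_len]
  simp; ring

theorem P1_reduced (r : ℕ) {i j : X} (hij : i ≠ j) : IsReduced (P1 r i j) := by
  unfold P1
  rw [FreeGroup.IsReduced, List.isChain_append]
  refine ⟨v1_reduced r i, ?_, ?_⟩
  · rw [List.singleton_append, List.isChain_cons]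
    refine ⟨?_, invRev_reduced (v1_reduced r i)⟩
    intro y hy h
    exfalso
    have hy2 : y ∈ invRev (v1 r i) := List.mem_of_mem_head? hy
    rw [FreeGroup.invRev, List.mem_reverse, List.mem_map] at hy2
    obtain ⟨c, hc, hcy⟩ := hy2
    have hc2 : c = (i, true) := List.eq_of_mem_replicate hc
    rw [← hcy, hc2] at h
    exact hij h.symm
  · intro x hx y hy h
    exfalso
    have hx2 : x = (i, true) := List.eq_of_mem_replicate (List.mem_of_mem_getLast? hx)
    simp at hy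
    rw [hx2, ← hy] at h
    exact hij h

theorem P2_reduced (r : ℕ) {i j : X} (hij : i ≠ j) : IsReduced (P2 r i j) := by
  have hlast : ∀ x ∈ (v2 r i j).getLast?, x = (j, true) := by
    intro x hx
    unfold v2 at hx
    rw [List.replicate_succ', List.flatten_concat, List.getLast?_append] at hx
    simpa using hx.symm
  unfold P2
  rw [FreeGroup.IsReduced, List.isChain_append]
  refine ⟨v2_reduced r i j, ?_, ?_⟩
  · rw [List.singleton_append, List.isChain_cons]
    refine ⟨?_, invRev_reduced (v2_reduced r i j)⟩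
    intro y hy h
    exfalso
    rw [FreeGroup.invRev, List.head?_reverse, List.getLast?_map, Option.mem_def,
      Option.map_eq_some_iff] at hy
    obtain ⟨c, hc, hcy⟩ := hy
    have hc2 := hlast c hc
    rw [← hcy, hc2] at h
    exact hij h
  · intro x hx y hy h
    exfalso
    have hx2 := hlast x hx
    simp at hy
    rw [hx2, ← hy] at h
    exact hij h.symm

/-! ### finite sets of words -/

/-- reduced words of length k -/
def RR (k : ℕ) : Finset (List (X × Bool)) := Finset.univ.biUnion fun a => Rw k a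

/-- those avoiding U -/
noncomputable def AA (U : List (X × Bool)) (k : ℕ) : Finset (List (X × Bool)) :=
  Finset.univ.biUnion fun a => Av U k a

theorem exists_before1 [Nonempty X] (w : List (X × Bool)) (hw : IsReduced w) :
    ∃ a : X × Bool, IsReduced (a :: w) := by
  cases w with
  | nil =>
    obtain ⟨x⟩ := ‹Nonempty X›
    exact ⟨(x, true), IsReduced.singleton⟩
  | cons b w => exact ⟨b, isReduced_cons_cons.2 ⟨fun _ => rfl, hw⟩⟩

theorem mem_RR [Nonempty X] {w : List (X × Bool)} (hw : IsReduced w) : w ∈ RR w.length := by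
  obtain ⟨a, ha⟩ := exists_before1 w hw
  exact Finset.mem_biUnion.2 ⟨a, Finset.mem_univ _, (mem_Rw _ _ _).2 ⟨rfl, ha⟩⟩

theorem mem_AA [Nonempty X] {U w : List (X × Bool)} (hw : IsReduced w) (h : ¬ U <:+: w) :
    w ∈ AA U w.length := by
  obtain ⟨a, ha⟩ := exists_before1 w hw
  exact Finset.mem_biUnion.2 ⟨a, Finset.mem_univ _, (mem_Av _ _ _ _).2 ⟨⟨rfl, ha⟩, h⟩⟩

theorem card_RR (k : ℕ) : (RR (X := X) k).card ≤
    2 * Fintype.card X * (2 * Fintype.card X - 1) ^ k := by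
  unfold RR
  refine Finset.card_biUnion_le.trans ?_
  calc _ ≤ ∑ _a : X × Bool, (2 * Fintype.card X - 1) ^ k :=
        Finset.sum_le_sum fun a _ => card_Rw k a
    _ = _ := by
        rw [Finset.sum_const, Finset.card_univ, Fintype.card_prod, Fintype.card_bool, smul_eq_mul]
        ring

theorem card_AA (h3 : 3 ≤ Fintype.card X) (U : List (X × Bool)) (hU : IsReduced U) (k : ℕ) :
    (AA U k).card ≤ 2 * Fintype.card X *
      (((2 * Fintype.card X - 1) ^ (U.length + 1) - 1) ^ (k / (U.length + 1)) *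
        (2 * Fintype.card X - 1) ^ (k % (U.length + 1))) := by
  unfold AA
  refine Finset.card_biUnion_le.trans ?_
  calc _ ≤ ∑ _a : X × Bool, (((2 * Fintype.card X - 1) ^ (U.length + 1) - 1) ^ (k / (U.length + 1)) *
        (2 * Fintype.card X - 1) ^ (k % (U.length + 1))) := by
        refine Finset.sum_le_sum fun a _ => ?_
        have := card_Av h3 U hU (k / (U.length + 1)) (k % (U.length + 1)) a
        rwa [Nat.div_add_mod] at this
    _ = _ := by
        rw [Finset.sum_const, Finset.card_univ, Fintype.card_prod, Fintype.card_bool, smul_eq_mul]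
        ring

/-- the pattern of an index -/
def Pt (t : (X × X) × Bool) : List (X × Bool) :=
  if t.2 = true then P1 (Fintype.card X) t.1.1 t.1.2 else P2 (Fintype.card X) t.1.1 t.1.2

theorem Pt_len (t : (X × X) × Bool) : (Pt t).length = 20 * Fintype.card X + 5 := by
  unfold Pt; split_ifs
  · exact P1_len _ _ _
  · exact P2_len _ _ _

theorem Pt_reduced (t : (X × X) × Bool) (ht : t.1.1 ≠ t.1.2) : IsReduced (Pt t) := by
  unfold Pt; split_ifs
  · exact P1_reduced _ ht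
  · exact P2_reduced _ ht

/-- indices -/
def Idx : Finset ((X × X) × Bool) := Finset.univ.filter fun t => t.1.1 ≠ t.1.2

/-- the big finite set -/
noncomputable def Big (n : ℕ) : Finset (FreeGroup X) :=
  (Finset.range (n / 2 + 1)).biUnion fun k =>
    ((RR k) ×ˢ (Idx.biUnion fun t => AA (Pt t) (n - 2 * k))).image
      fun q => mk (q.1 ++ q.2 ++ invRev q.1)

/-- generalised potential positivity -/
def GPP (u : FreeGroup X) : Prop :=
  ∃ ψ : FreeGroup X →* FreeGroup X, Function.Injective ψ ∧ Pos (ψ u)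

theorem bad_subset [Nontrivial X] (n : ℕ) (u : FreeGroup X) (hn : u.norm = n) (hu : GPP u) :
    u ∈ Big n := by
  obtain ⟨ψ, hψ, hpos⟩ := hu
  have : Inhabited X := ⟨Classical.arbitrary X⟩
  set C := reduceCyclically.conjugator u.toWord with hC
  set R := reduceCyclically u.toWord with hR
  have hdec : C ++ R ++ invRev C = u.toWord :=
    reduceCyclically.conj_conjugator_reduceCyclically u.toWord
  have hred : IsReduced u.toWord := isReduced_toWord
  have hRc : IsCyclicallyReduced R := reduceCyclically.isCyclicallyReduced hred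
  have hCred : IsReduced C := redsub hred ⟨[], R ++ invRev C, by rw [← hdec]; simp⟩
  have hlen : n = 2 * C.length + R.length := by
    rw [← hn, FreeGroup.norm, ← hdec]
    simp [invRev_length]; ring
  have hconj : u = mk C * mk R * (mk C)⁻¹ := by
    rw [← mk_toWord (x := u), ← hdec, ← mul_mk, ← mul_mk, ← inv_mk]
  -- positivity of R
  let ψ' : FreeGroup X →* FreeGroup X := ψ.comp (MulAut.conj (mk C)).toMonoidHom
  have hψ' : ∀ g, ψ' g = ψ (mk C * g * (mk C)⁻¹) := by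
    intro g; simp [ψ', MulAut.conj_apply]
  have hinj' : Function.Injective ψ' := by
    intro a b hab
    rw [hψ', hψ'] at hab
    exact mul_left_cancel (mul_right_cancel (hψ hab))
  have hpos' : Pos (ψ' (mk R)) := by
    rw [hψ', ← hconj]; exact hpos
  obtain ⟨i, j, hij, hor⟩ := no_pattern ψ' hinj' R hRc hpos'
  have hex : ∃ t ∈ (Idx : Finset ((X × X) × Bool)), ¬ Pt t <:+: R := by
    rcases hor with h | h
    · exact ⟨((i, j), true), by simp [Idx, hij], by simpa [Pt] using h⟩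
    · exact ⟨((i, j), false), by simp [Idx, hij], by simpa [Pt] using h⟩
  obtain ⟨t, ht, hav⟩ := hex
  unfold Big
  rw [Finset.mem_biUnion]
  refine ⟨C.length, Finset.mem_range.2 (by omega), ?_⟩
  rw [Finset.mem_image]
  refine ⟨(C, R), Finset.mem_product.2 ⟨mem_RR hCred, ?_⟩, ?_⟩
  · rw [Finset.mem_biUnion]
    refine ⟨t, ht, ?_⟩
    have : n - 2 * C.length = R.length := by omega
    rw [this]
    exact mem_AA hRc.isReduced hav
  · simp only
    rw [hdec, mk_toWord]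

/-- the explicit rate -/
noncomputable def rho' (r : ℕ) : ℝ :=
  (((2 * (r : ℝ) - 1) ^ (20 * r + 6) - 1)) ^ (1 / ((20 * r + 6 : ℕ) : ℝ))

theorem rho_pow (r : ℕ) (hr : 3 ≤ r) : rho' r ^ (20 * r + 6) = (2 * (r : ℝ) - 1) ^ (20 * r + 6) - 1 := by
  unfold rho'
  rw [← Real.rpow_natCast, ← Real.rpow_mul, one_div, inv_mul_cancel₀, Real.rpow_one]
  · positivity
  · have : (1 : ℝ) ≤ (2 * (r : ℝ) - 1) ^ (20 * r + 6) := by
      apply one_le_pow₀
      have : (3 : ℝ) ≤ r := by exact_mod_cast hr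
      linarith
    linarith

theorem rho_nonneg (r : ℕ) (hr : 3 ≤ r) : 0 ≤ rho' r := by
  unfold rho'
  apply Real.rpow_nonneg
  have : (1 : ℝ) ≤ (2 * (r : ℝ) - 1) ^ (20 * r + 6) := by
    apply one_le_pow₀
    have : (3 : ℝ) ≤ r := by exact_mod_cast hr
    linarith
  linarith

theorem rho_lt (r : ℕ) (hr : 3 ≤ r) : rho' r < 2 * (r : ℝ) - 1 := by
  have h3 : (3 : ℝ) ≤ r := by exact_mod_cast hr
  refine lt_of_pow_lt_pow_left₀ (20 * r + 6) (by linarith) ?_
  rw [rho_pow r hr]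
  linarith

theorem rho_ge (r : ℕ) (hr : 3 ≤ r) : 2 * (r : ℝ) - 2 ≤ rho' r := by
  have h3 : (3 : ℝ) ≤ r := by exact_mod_cast hr
  refine le_of_pow_le_pow_left₀ (n := 20 * r + 6) (by omega) (rho_nonneg r hr) ?_
  rw [rho_pow r hr]
  have h1 : ((2 * r - 2 : ℤ)) ^ (20 * r + 6) < ((2 * r - 1 : ℤ)) ^ (20 * r + 6) := by
    apply pow_lt_pow_left₀ _ _ (by omega)
    · omega
    · omega
  have h2 : ((2 * r - 2 : ℤ)) ^ (20 * r + 6) + 1 ≤ ((2 * r - 1 : ℤ)) ^ (20 * r + 6) := h1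
  have h4 : (((2 * r - 2 : ℤ)) ^ (20 * r + 6) + 1 : ℝ) ≤ (((2 * r - 1 : ℤ)) ^ (20 * r + 6) : ℝ) := by
    exact_mod_cast h2
  push_cast at h4
  linarith

theorem card_Big (h3 : 3 ≤ Fintype.card X) (n : ℕ) :
    ((Big (X := X) n).card : ℝ) ≤
      (16 * (Fintype.card X : ℝ) ^ 4 * (2 * (Fintype.card X : ℝ) - 1) ^ (20 * Fintype.card X + 6)) *
        rho' (Fintype.card X) ^ n := by
  set c := Fintype.card X with hc
  set K := 20 * c + 6 with hK
  set ρ := rho' c with hρ
  have hc3 : (3 : ℝ) ≤ (c : ℝ) := by exact_mod_cast h3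
  have hρ0 : 0 ≤ ρ := rho_nonneg c h3
  have hρge : 2 * (c : ℝ) - 2 ≤ ρ := rho_ge c h3
  have hρ1 : 1 ≤ ρ := by linarith
  have hρK : ρ ^ K = (2 * (c : ℝ) - 1) ^ K - 1 := rho_pow c h3
  have hd : ((2 * c - 1 : ℕ) : ℝ) = 2 * (c : ℝ) - 1 := by
    rw [Nat.cast_sub (by omega)]; push_cast; ring
  -- bound of AA
  have hAA : ∀ (t : (X × X) × Bool) (k : ℕ), t ∈ (Idx : Finset ((X × X) × Bool)) →
      ((AA (Pt t) k).card : ℝ) ≤ 2 * c * ((2 * (c : ℝ) - 1) ^ K * ρ ^ k) := by
    intro t k ht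
    have htne : t.1.1 ≠ t.1.2 := (Finset.mem_filter.1 ht).2
    have h := card_AA h3 (Pt t) (Pt_reduced t htne) k
    rw [Pt_len] at h
    rw [← hc] at h
    have hKK : 20 * c + 5 + 1 = K := by omega
    rw [hKK] at h
    have h' : ((AA (Pt t) k).card : ℝ) ≤
        ((2 * c * (((2 * c - 1) ^ K - 1) ^ (k / K) * (2 * c - 1) ^ (k % K)) : ℕ) : ℝ) := by
      exact_mod_cast h
    refine h'.trans ?_
    have hcast : (((2 * c - 1) ^ K - 1 : ℕ) : ℝ) = ρ ^ K := by
      rw [hρK, Nat.cast_sub (Nat.one_le_pow _ _ (by omega)), Nat.cast_pow, hd]; simp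
    have e0 : ((2 * c * (((2 * c - 1) ^ K - 1) ^ (k / K) * (2 * c - 1) ^ (k % K)) : ℕ) : ℝ)
        = 2 * (c : ℝ) * ((((2 * c - 1) ^ K - 1 : ℕ) : ℝ) ^ (k / K) * ((2 * c - 1 : ℕ) : ℝ) ^ (k % K)) := by
      rw [Nat.cast_mul, Nat.cast_mul, Nat.cast_mul, Nat.cast_pow, Nat.cast_pow]
      norm_num
    rw [e0, hcast, hd]
    have e1 : (ρ ^ K) ^ (k / K) ≤ ρ ^ k := by
      rw [← pow_mul]
      exact pow_le_pow_right₀ hρ1 (Nat.mul_div_le k K)
    have e2 : (2 * (c : ℝ) - 1) ^ (k % K) ≤ (2 * (c : ℝ) - 1) ^ K :=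
      pow_le_pow_right₀ (by linarith) (Nat.mod_lt _ (by omega)).le
    have e3 : (ρ ^ K) ^ (k / K) * (2 * (c : ℝ) - 1) ^ (k % K) ≤ ρ ^ k * (2 * (c : ℝ) - 1) ^ K :=
      mul_le_mul e1 e2 (pow_nonneg (by linarith) _) (pow_nonneg hρ0 _)
    have e4 : (2 * (c : ℝ) - 1) ^ K * ρ ^ k = ρ ^ k * (2 * (c : ℝ) - 1) ^ K := mul_comm _ _
    rw [e4]
    exact mul_le_mul_of_nonneg_left e3 (by positivity)
  have hIdx : ((Idx : Finset ((X × X) × Bool)).card : ℝ) ≤ 2 * (c : ℝ) ^ 2 := by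
    have : (Idx : Finset ((X × X) × Bool)).card ≤ c * c * 2 := by
      refine (Finset.card_filter_le _ _).trans ?_
      rw [Finset.card_univ, Fintype.card_prod, Fintype.card_prod, Fintype.card_bool]
    have h' : ((Idx : Finset ((X × X) × Bool)).card : ℝ) ≤ ((c * c * 2 : ℕ) : ℝ) := by
      exact_mod_cast this
    refine h'.trans (le_of_eq ?_)
    push_cast; ring
  have hRR : ∀ k, ((RR (X := X) k).card : ℝ) ≤ 2 * c * (2 * (c : ℝ) - 1) ^ k := by
    intro k
    have h := card_RR (X := X) k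
    rw [← hc] at h
    have h' : ((RR (X := X) k).card : ℝ) ≤ ((2 * c * (2 * c - 1) ^ k : ℕ) : ℝ) := by
      exact_mod_cast h
    refine h'.trans (le_of_eq ?_)
    rw [Nat.cast_mul, Nat.cast_mul, Nat.cast_pow, hd]; norm_num
  -- assemble
  have h1 : ((Big (X := X) n).card : ℝ) ≤ ∑ k ∈ Finset.range (n / 2 + 1),
      (2 * c * (2 * (c : ℝ) - 1) ^ k) * (2 * (c : ℝ) ^ 2 * (2 * c * ((2 * (c : ℝ) - 1) ^ K * ρ ^ (n - 2 * k)))) := by
    unfold Big
    have hb := Finset.card_biUnion_le (s := Finset.range (n / 2 + 1)) (t := fun k =>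
      ((RR (X := X) k) ×ˢ (Idx.biUnion fun t => AA (Pt t) (n - 2 * k))).image
        fun q => mk (q.1 ++ q.2 ++ invRev q.1))
    refine (Nat.cast_le.2 hb).trans ?_
    push_cast
    refine Finset.sum_le_sum fun k _ => ?_
    refine (Nat.cast_le.2 Finset.card_image_le).trans ?_
    rw [Finset.card_product, Nat.cast_mul]
    refine mul_le_mul (hRR k) ?_ (Nat.cast_nonneg _) (by
      have : (0 : ℝ) ≤ 2 * (c : ℝ) - 1 := by linarith
      positivity)
    refine (Nat.cast_le.2 Finset.card_biUnion_le).trans ?_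
    push_cast
    calc ∑ t ∈ (Idx : Finset ((X × X) × Bool)), ((AA (Pt t) (n - 2 * k)).card : ℝ)
        ≤ ∑ _t ∈ (Idx : Finset ((X × X) × Bool)), 2 * c * ((2 * (c : ℝ) - 1) ^ K * ρ ^ (n - 2 * k)) :=
          Finset.sum_le_sum fun t ht => hAA t _ ht
      _ = (Idx : Finset ((X × X) × Bool)).card * (2 * c * ((2 * (c : ℝ) - 1) ^ K * ρ ^ (n - 2 * k))) := by
          rw [Finset.sum_const, nsmul_eq_mul]
      _ ≤ 2 * (c : ℝ) ^ 2 * (2 * c * ((2 * (c : ℝ) - 1) ^ K * ρ ^ (n - 2 * k))) := by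
          refine mul_le_mul_of_nonneg_right hIdx ?_
          have : (0 : ℝ) ≤ 2 * (c : ℝ) - 1 := by linarith
          positivity
  refine h1.trans ?_
  have h2 : ∀ k ∈ Finset.range (n / 2 + 1),
      (2 * c * (2 * (c : ℝ) - 1) ^ k) * (2 * (c : ℝ) ^ 2 * (2 * c * ((2 * (c : ℝ) - 1) ^ K * ρ ^ (n - 2 * k))))
      ≤ (8 * (c : ℝ) ^ 4 * (2 * (c : ℝ) - 1) ^ K * ρ ^ n) * (1 / 2) ^ k := by
    intro k hk
    have hk2 : 2 * k ≤ n := by
      have := Finset.mem_range.1 hk; omega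
    have e1 : (2 * (c : ℝ) - 1) ^ k * ρ ^ (n - 2 * k) ≤ ρ ^ n * (1 / 2) ^ k := by
      have e2 : (2 * (c : ℝ) - 1) ≤ ρ ^ 2 * (1 / 2) := by nlinarith
      have e3 : (2 * (c : ℝ) - 1) ^ k ≤ (ρ ^ 2 * (1 / 2)) ^ k :=
        pow_le_pow_left₀ (by linarith) e2 k
      calc (2 * (c : ℝ) - 1) ^ k * ρ ^ (n - 2 * k)
          ≤ (ρ ^ 2 * (1 / 2)) ^ k * ρ ^ (n - 2 * k) :=
            mul_le_mul_of_nonneg_right e3 (pow_nonneg hρ0 _)
        _ = (ρ ^ (2 * k) * ρ ^ (n - 2 * k)) * (1 / 2) ^ k := by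
            rw [mul_pow, ← pow_mul]; ring
        _ = ρ ^ n * (1 / 2) ^ k := by rw [← pow_add, Nat.add_sub_cancel' hk2]
    have hpos : (0 : ℝ) ≤ 8 * (c : ℝ) ^ 4 * (2 * (c : ℝ) - 1) ^ K := by
      have : (0 : ℝ) ≤ 2 * (c : ℝ) - 1 := by linarith
      positivity
    calc _ = (8 * (c : ℝ) ^ 4 * (2 * (c : ℝ) - 1) ^ K) * ((2 * (c : ℝ) - 1) ^ k * ρ ^ (n - 2 * k)) := by
          ring
      _ ≤ (8 * (c : ℝ) ^ 4 * (2 * (c : ℝ) - 1) ^ K) * (ρ ^ n * (1 / 2) ^ k) :=
          mul_le_mul_of_nonneg_left e1 hpos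
      _ = _ := by ring
  refine (Finset.sum_le_sum h2).trans ?_
  rw [← Finset.mul_sum]
  have h4 : ∑ k ∈ Finset.range (n / 2 + 1), (1 / 2 : ℝ) ^ k ≤ 2 := sum_geometric_two_le _
  have hpos : (0 : ℝ) ≤ 8 * (c : ℝ) ^ 4 * (2 * (c : ℝ) - 1) ^ K * ρ ^ n := by
    have : (0 : ℝ) ≤ 2 * (c : ℝ) - 1 := by linarith
    positivity
  calc _ ≤ 8 * (c : ℝ) ^ 4 * (2 * (c : ℝ) - 1) ^ K * ρ ^ n * 2 := mul_le_mul_of_nonneg_left h4 hpos
    _ = _ := by ring

end H307PP
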